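import Mathlib

/-!
# Exponential polynomials with exponentially small errors
-/

set_option autoImplicit false

namespace Pool.Agent.KS6_82.Att

open Filter Topology

/-- exponentially bounded sequences -/
def Bd (ρ : ℝ) (u : ℕ → ℂ) : Prop := ∃ C : ℝ, ∀ n, ‖u n‖ ≤ C * ρ ^ n

lemma Bd.nonneg {ρ : ℝ} {u : ℕ → ℂ} (h : Bd ρ u) : ∃ C : ℝ, 0 ≤ C ∧ ∀ n, ‖u n‖ ≤ C * ρ ^ n := by
  obtain ⟨C, hC⟩ := h
  refine ⟨C, ?_, hC⟩
  have := hC 0
  rw [pow_zero, mul_one] at this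
  exact (norm_nonneg _).trans this

lemma Bd.zero (ρ : ℝ) : Bd ρ 0 := ⟨0, fun n => by simp⟩

lemma Bd.add {ρ : ℝ} {u v : ℕ → ℂ} (hu : Bd ρ u) (hv : Bd ρ v) : Bd ρ (u + v) := by
  obtain ⟨C, hC⟩ := hu
  obtain ⟨D, hD⟩ := hv
  refine ⟨C + D, fun n => ?_⟩
  rw [add_mul]
  exact (norm_add_le _ _).trans (add_le_add (hC n) (hD n))

lemma Bd.smul {ρ : ℝ} {u : ℕ → ℂ} (hu : Bd ρ u) (a : ℂ) : Bd ρ (a • u) := by
  obtain ⟨C, hC⟩ := hu
  refine ⟨‖a‖ * C, fun n => ?_⟩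
  rw [Pi.smul_apply, smul_eq_mul, norm_mul, mul_assoc]
  exact mul_le_mul_of_nonneg_left (hC n) (norm_nonneg _)

lemma Bd.sub {ρ : ℝ} {u v : ℕ → ℂ} (hu : Bd ρ u) (hv : Bd ρ v) : Bd ρ (u - v) := by
  have := hu.add (hv.smul (-1))
  rwa [neg_one_smul, ← sub_eq_add_neg] at this

lemma Bd.mono {ρ σ : ℝ} {u : ℕ → ℂ} (hu : Bd ρ u) (h0 : 0 ≤ ρ) (h : ρ ≤ σ) : Bd σ u := by
  obtain ⟨C, hC0, hC⟩ := hu.nonneg
  refine ⟨C, fun n => (hC n).trans ?_⟩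
  exact mul_le_mul_of_nonneg_left (pow_le_pow_left₀ h0 h n) hC0

lemma Bd.mul {ρ σ : ℝ} {u v : ℕ → ℂ} (hu : Bd ρ u) (hv : Bd σ v) : Bd (ρ * σ) (u * v) := by
  obtain ⟨C, hC0, hC⟩ := hu.nonneg
  obtain ⟨D, hD0, hD⟩ := hv.nonneg
  refine ⟨C * D, fun n => ?_⟩
  rw [Pi.mul_apply, norm_mul, mul_pow]
  calc ‖u n‖ * ‖v n‖ ≤ (C * ρ ^ n) * (D * σ ^ n) :=
        mul_le_mul (hC n) (hD n) (norm_nonneg _) ((norm_nonneg _).trans (hC n))
    _ = C * D * (ρ ^ n * σ ^ n) := by ring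

/-- the shift -/
def sh (u : ℕ → ℂ) : ℕ → ℂ := fun n => u (n + 1)

@[simp] lemma sh_apply (u : ℕ → ℂ) (n : ℕ) : sh u n = u (n + 1) := rfl

lemma Bd.sh {ρ : ℝ} {u : ℕ → ℂ} (hu : Bd ρ u) : Bd ρ (sh u) := by
  obtain ⟨C, hC⟩ := hu
  refine ⟨C * ρ, fun n => ?_⟩
  have := hC (n + 1)
  rw [pow_succ] at this
  simpa [mul_assoc, mul_comm, mul_left_comm] using this

lemma Bd.tendsto {ρ : ℝ} {u : ℕ → ℂ} (hu : Bd ρ u) (h0 : 0 ≤ ρ) (h1 : ρ < 1) :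
    Tendsto u atTop (𝓝 0) := by
  obtain ⟨C, hC⟩ := hu
  apply squeeze_zero_norm hC
  have := (tendsto_pow_atTop_nhds_zero_of_lt_one h0 h1).const_mul C
  simpa using this

/-- polynomial times exponential is exponentially bounded -/
lemma bd_pow (k : ℕ) (γ : ℂ) (ρ : ℝ) (h : ‖γ‖ < ρ) : Bd ρ fun n => (n : ℂ) ^ k * γ ^ n := by
  have hρ : 0 < ρ := (norm_nonneg _).trans_lt h
  have h1 : |‖γ‖ / ρ| < 1 := by
    rw [abs_of_nonneg (div_nonneg (norm_nonneg _) hρ.le), div_lt_one hρ]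
    exact h
  have h2 := (tendsto_pow_const_mul_const_pow_of_abs_lt_one k h1)
  obtain ⟨C, hC⟩ := h2.bddAbove_range
  refine ⟨C, fun n => ?_⟩
  have h3 : (n : ℝ) ^ k * (‖γ‖ / ρ) ^ n ≤ C := hC ⟨n, rfl⟩
  rw [norm_mul, norm_pow, norm_pow, Complex.norm_natCast]
  rw [div_pow, ← mul_div_assoc, div_le_iff₀ (pow_pos hρ n)] at h3
  exact h3

/-- exponential polynomials with frequencies in `Γ` -/
def EP (Γ : Set ℂ) : Submodule ℂ (ℕ → ℂ) :=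
  Submodule.span ℂ {u | ∃ γ ∈ Γ, ∃ k : ℕ, u = fun n : ℕ => (n : ℂ) ^ k * γ ^ n}

variable {Γ : Set ℂ}

lemma EP.gen {γ : ℂ} (h : γ ∈ Γ) (k : ℕ) : (fun n : ℕ => (n : ℂ) ^ k * γ ^ n) ∈ EP Γ :=
  Submodule.subset_span ⟨γ, h, k, rfl⟩

lemma EP.mul (hΓ : ∀ a ∈ Γ, ∀ b ∈ Γ, a * b ∈ Γ) {u v : ℕ → ℂ} (hu : u ∈ EP Γ) (hv : v ∈ EP Γ) :
    u * v ∈ EP Γ := by
  induction hu using Submodule.span_induction with
  | mem u hu =>
    obtain ⟨a, ha, k, rfl⟩ := hu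
    induction hv using Submodule.span_induction with
    | mem v hv =>
      obtain ⟨b, hb, l, rfl⟩ := hv
      have : (fun n : ℕ => (n : ℂ) ^ k * a ^ n) * (fun n : ℕ => (n : ℂ) ^ l * b ^ n) =
          fun n : ℕ => (n : ℂ) ^ (k + l) * (a * b) ^ n := by
        funext n
        rw [Pi.mul_apply, mul_pow, pow_add]
        ring
      rw [this]
      exact EP.gen (hΓ a ha b hb) _
    | zero => rw [mul_zero]; exact Submodule.zero_mem _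
    | add x y _ _ hx hy => rw [mul_add]; exact Submodule.add_mem _ hx hy
    | smul c x _ hx => rw [mul_smul_comm]; exact Submodule.smul_mem _ _ hx
  | zero => rw [zero_mul]; exact Submodule.zero_mem _
  | add x y _ _ hx hy => rw [add_mul]; exact Submodule.add_mem _ hx hy
  | smul c x _ hx => rw [smul_mul_assoc]; exact Submodule.smul_mem _ _ hx

lemma EP.bd (h1 : ∀ a ∈ Γ, ‖a‖ < 1) {u : ℕ → ℂ} (hu : u ∈ EP Γ) : ∃ ρ : ℝ, 0 ≤ ρ ∧ ρ < 1 ∧ Bd ρ u := by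
  induction hu using Submodule.span_induction with
  | mem u hu =>
    obtain ⟨a, ha, k, rfl⟩ := hu
    obtain ⟨ρ, hρ1, hρ2⟩ := exists_between (h1 a ha)
    exact ⟨ρ, (norm_nonneg _).trans hρ1.le, hρ2, bd_pow k a ρ hρ1⟩
  | zero => exact ⟨0, le_rfl, one_pos, Bd.zero _⟩
  | add x y _ _ hx hy =>
    obtain ⟨a, ha0, ha1, ha⟩ := hx
    obtain ⟨b, hb0, hb1, hb⟩ := hy
    exact ⟨max a b, ha0.trans (le_max_left _ _), max_lt ha1 hb1,
      (ha.mono ha0 (le_max_left _ _)).add (hb.mono hb0 (le_max_right _ _))⟩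
  | smul c x _ hx =>
    obtain ⟨a, ha0, ha1, ha⟩ := hx
    exact ⟨a, ha0, ha1, ha.smul c⟩

/-- the operator `E - ν` -/
def dl (ν : ℂ) (u : ℕ → ℂ) : ℕ → ℂ := fun n => u (n + 1) - ν * u n

lemma dl_apply (ν : ℂ) (u : ℕ → ℂ) (n : ℕ) : dl ν u n = u (n + 1) - ν * u n := rfl

lemma dl_add (ν : ℂ) (u v : ℕ → ℂ) : dl ν (u + v) = dl ν u + dl ν v := by
  funext n
  simp only [dl, Pi.add_apply]
  ring

lemma dl_sub (ν : ℂ) (u v : ℕ → ℂ) : dl ν (u - v) = dl ν u - dl ν v := by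
  funext n
  simp only [dl, Pi.sub_apply]
  ring

lemma dl_smul (ν a : ℂ) (u : ℕ → ℂ) : dl ν (a • u) = a • dl ν u := by
  funext n
  simp only [dl, Pi.smul_apply, smul_eq_mul]
  ring

/-- `n ^ k γ ^ n` is in the image of `E - ν` -/
lemma dl_gen {γ ν : ℂ} (hγ : γ ∈ Γ) (hγ0 : γ ≠ 0) (k : ℕ) :
    ∃ Q ∈ EP Γ, dl ν Q = fun n : ℕ => (n : ℂ) ^ k * γ ^ n := by
  induction k using Nat.strong_induction_on with
  | _ k ih =>
    -- sums of lower terms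
    have hlow : ∀ (m : ℕ) (_ : m ≤ k) (c : ℕ → ℂ), ∃ Q ∈ EP Γ,
        dl ν Q = fun n : ℕ => (∑ j ∈ Finset.range m, c j * (n : ℂ) ^ j) * γ ^ n := by
      intro m hm c
      induction m with
      | zero => exact ⟨0, Submodule.zero_mem _, by funext n; simp [dl]⟩
      | succ m ihm =>
        obtain ⟨Q, hQ, h1⟩ := ihm (by omega)
        obtain ⟨Q', hQ', h2⟩ := ih m (by omega)
        refine ⟨Q + c m • Q', Submodule.add_mem _ hQ (Submodule.smul_mem _ _ hQ'), ?_⟩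
        rw [dl_add, dl_smul, h1, h2]
        funext n
        simp only [Pi.add_apply, Pi.smul_apply, smul_eq_mul, Finset.sum_range_succ]
        ring
    by_cases hne : γ = ν
    · subst hne
      obtain ⟨Q, hQ, h1⟩ := hlow k le_rfl (fun j => ((k + 1).choose j : ℂ))
      have hk : ((k : ℂ) + 1) ≠ 0 := Nat.cast_add_one_ne_zero k
      refine ⟨(1 / (((k : ℂ) + 1) * γ)) • ((fun n : ℕ => (n : ℂ) ^ (k + 1) * γ ^ n) - γ • Q),
        Submodule.smul_mem _ _ (Submodule.sub_mem _ (EP.gen hγ _) (Submodule.smul_mem _ _ hQ)), ?_⟩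
      rw [dl_smul, dl_sub, dl_smul, h1]
      funext n
      simp only [Pi.smul_apply, Pi.sub_apply, smul_eq_mul, dl]
      have h2 : ((n + 1 : ℕ) : ℂ) ^ (k + 1) = (n : ℂ) ^ (k + 1) + ((k : ℂ) + 1) * (n : ℂ) ^ k +
          ∑ j ∈ Finset.range k, ((k + 1).choose j : ℂ) * (n : ℂ) ^ j := by
        push_cast
        rw [add_pow, Finset.sum_range_succ, Finset.sum_range_succ]
        simp only [one_pow, mul_one, Nat.choose_self, Nat.cast_one, Nat.choose_succ_self_right]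
        push_cast
        rw [Finset.sum_congr rfl fun j _ => mul_comm ((n : ℂ) ^ j) _]
        ring
      rw [h2]
      field_simp
      ring
    · obtain ⟨Q, hQ, h1⟩ := hlow k le_rfl (fun j => (k.choose j : ℂ))
      have hk : γ - ν ≠ 0 := sub_ne_zero.2 hne
      refine ⟨(1 / (γ - ν)) • ((fun n : ℕ => (n : ℂ) ^ k * γ ^ n) - γ • Q),
        Submodule.smul_mem _ _ (Submodule.sub_mem _ (EP.gen hγ _) (Submodule.smul_mem _ _ hQ)), ?_⟩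
      rw [dl_smul, dl_sub, dl_smul, h1]
      funext n
      simp only [Pi.smul_apply, Pi.sub_apply, smul_eq_mul, dl]
      have h2 : ((n + 1 : ℕ) : ℂ) ^ k = (n : ℂ) ^ k +
          ∑ j ∈ Finset.range k, (k.choose j : ℂ) * (n : ℂ) ^ j := by
        push_cast
        rw [add_pow, Finset.sum_range_succ]
        simp only [one_pow, mul_one, Nat.choose_self, Nat.cast_one]
        rw [Finset.sum_congr rfl fun j _ => mul_comm ((n : ℂ) ^ j) _]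
        ring
      rw [h2]
      field_simp
      ring

lemma EP.dl_surj (h0 : ∀ a ∈ Γ, a ≠ 0) (ν : ℂ) {u : ℕ → ℂ} (hu : u ∈ EP Γ) :
    ∃ Q ∈ EP Γ, dl ν Q = u := by
  induction hu using Submodule.span_induction with
  | mem u hu =>
    obtain ⟨a, ha, k, rfl⟩ := hu
    exact dl_gen ha (h0 a ha) k
  | zero => exact ⟨0, Submodule.zero_mem _, by funext n; simp [dl]⟩
  | add x y _ _ hx hy =>
    obtain ⟨Q, hQ, h1⟩ := hx
    obtain ⟨Q', hQ', h2⟩ := hy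
    exact ⟨Q + Q', Submodule.add_mem _ hQ hQ', by rw [dl_add, h1, h2]⟩
  | smul c x _ hx =>
    obtain ⟨Q, hQ, h1⟩ := hx
    exact ⟨c • Q, Submodule.smul_mem _ _ hQ, by rw [dl_smul, h1]⟩

/-- the stable scalar recursion -/
lemma rec_stable {ν : ℂ} {ρ : ℝ} (h : ‖ν‖ < ρ) {u : ℕ → ℂ} (hu : Bd ρ (dl ν u)) : Bd ρ u := by
  obtain ⟨C, hC0, hC⟩ := hu.nonneg
  have hρ : 0 < ρ := (norm_nonneg _).trans_lt h
  set K := max ‖u 0‖ (C / (ρ - ‖ν‖)) with hK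
  have hK1 : C ≤ K * (ρ - ‖ν‖) := by
    rw [← div_le_iff₀ (sub_pos.2 h)]
    exact le_max_right _ _
  refine ⟨K, fun n => ?_⟩
  induction n with
  | zero => rw [pow_zero, mul_one]; exact le_max_left _ _
  | succ n ih =>
    have h1 : u (n + 1) = dl ν u n + ν * u n := by rw [dl]; ring
    rw [h1]
    calc ‖dl ν u n + ν * u n‖ ≤ ‖dl ν u n‖ + ‖ν‖ * ‖u n‖ := by
          rw [← norm_mul]; exact norm_add_le _ _
      _ ≤ C * ρ ^ n + ‖ν‖ * (K * ρ ^ n) :=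
          add_le_add (hC n) (mul_le_mul_of_nonneg_left ih (norm_nonneg _))
      _ = (C + ‖ν‖ * K) * ρ ^ n := by ring
      _ ≤ (K * ρ) * ρ ^ n := by
          apply mul_le_mul_of_nonneg_right _ (pow_nonneg hρ.le n)
          linarith
      _ = K * ρ ^ (n + 1) := by rw [pow_succ]; ring

/-- the unstable scalar recursion -/
lemma rec_unstable {ν : ℂ} {ρ : ℝ} (hρ : 0 ≤ ρ) (h : ρ < ‖ν‖) {u : ℕ → ℂ} (hu : Bd ρ (dl ν u)) :
    ∃ c : ℂ, Bd ρ (fun n => u n - c * ν ^ n) := by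
  obtain ⟨C, hC0, hC⟩ := hu.nonneg
  have hν : ν ≠ 0 := norm_pos_iff.1 (hρ.trans_lt h)
  have hν' : 0 < ‖ν‖ := norm_pos_iff.2 hν
  set q := ρ / ‖ν‖ with hq
  have hq0 : 0 ≤ q := div_nonneg hρ hν'.le
  have hq1 : q < 1 := (div_lt_one hν').2 h
  set e := dl ν u with he
  -- the terms of the series
  have hb : ∀ n k : ℕ, ‖e (n + k) * (ν ^ (k + 1))⁻¹‖ ≤ (C * ρ ^ n / ‖ν‖) * q ^ k := by
    intro n k
    rw [norm_mul, norm_inv, norm_pow]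
    calc ‖e (n + k)‖ * (‖ν‖ ^ (k + 1))⁻¹ ≤ (C * ρ ^ (n + k)) * (‖ν‖ ^ (k + 1))⁻¹ :=
          mul_le_mul_of_nonneg_right (hC _) (inv_nonneg.2 (pow_nonneg hν'.le _))
      _ = (C * ρ ^ n / ‖ν‖) * q ^ k := by
          rw [hq, div_pow, pow_add, pow_succ]
          field_simp
  have hsum : ∀ n, Summable fun k => e (n + k) * (ν ^ (k + 1))⁻¹ := fun n =>
    Summable.of_norm_bounded ((summable_geometric_of_lt_one hq0 hq1).mul_left _) (hb n)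
  set s : ℕ → ℂ := fun n => -∑' k, e (n + k) * (ν ^ (k + 1))⁻¹ with hs
  have hsr : ∀ n, s (n + 1) = ν * s n + e n := by
    intro n
    have h1 := (hsum n).tsum_eq_zero_add
    simp only [hs]
    rw [h1]
    have h2 : ∀ k, e (n + (k + 1)) * (ν ^ (k + 1 + 1))⁻¹ =
        ν⁻¹ * (e (n + 1 + k) * (ν ^ (k + 1))⁻¹) := by
      intro k
      rw [show n + (k + 1) = n + 1 + k by ring, pow_succ (ν) (k + 1), mul_inv]
      ring
    simp_rw [h2]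
    rw [tsum_mul_left]
    simp only [add_zero, zero_add, pow_one]
    field_simp
    ring
  have hsb : Bd ρ s := by
    refine ⟨C / ‖ν‖ * (1 - q)⁻¹, fun n => ?_⟩
    simp only [hs, norm_neg]
    refine (tsum_of_norm_bounded ((hasSum_geometric_of_lt_one hq0 hq1).mul_left _) (hb n)).trans ?_
    exact le_of_eq (by ring)
  refine ⟨u 0 - s 0, ?_⟩
  have h3 : ∀ n, u n - (u 0 - s 0) * ν ^ n = s n := by
    intro n
    induction n with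
    | zero => rw [pow_zero]; ring
    | succ n ih =>
      have h1 : u (n + 1) = e n + ν * u n := by rw [he, dl]; ring
      rw [hsr, h1, ← ih, pow_succ]
      ring
  simp_rw [h3]
  exact hsb

/-- expansions with an error `O(ρ ^ n)` -/
def Ex (Γ : Set ℂ) (ρ : ℝ) (u : ℕ → ℂ) : Prop := ∃ P ∈ EP Γ, Bd ρ (u - P)

lemma Ex.of_bd {ρ : ℝ} {u : ℕ → ℂ} (h : Bd ρ u) : Ex Γ ρ u :=
  ⟨0, Submodule.zero_mem _, by rwa [sub_zero]⟩

lemma Ex.zero (ρ : ℝ) : Ex Γ ρ 0 := Ex.of_bd (Bd.zero _)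

lemma Ex.add {ρ : ℝ} {u v : ℕ → ℂ} (hu : Ex Γ ρ u) (hv : Ex Γ ρ v) : Ex Γ ρ (u + v) := by
  obtain ⟨P, hP, h1⟩ := hu
  obtain ⟨Q, hQ, h2⟩ := hv
  refine ⟨P + Q, Submodule.add_mem _ hP hQ, ?_⟩
  rw [add_sub_add_comm]
  exact h1.add h2

lemma Ex.smul {ρ : ℝ} {u : ℕ → ℂ} (hu : Ex Γ ρ u) (a : ℂ) : Ex Γ ρ (a • u) := by
  obtain ⟨P, hP, h1⟩ := hu
  refine ⟨a • P, Submodule.smul_mem _ _ hP, ?_⟩
  rw [← smul_sub]
  exact h1.smul a

lemma Ex.sub {ρ : ℝ} {u v : ℕ → ℂ} (hu : Ex Γ ρ u) (hv : Ex Γ ρ v) : Ex Γ ρ (u - v) := by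
  have := hu.add (hv.smul (-1))
  rwa [neg_one_smul, ← sub_eq_add_neg] at this

lemma Ex.mul (hΓ : ∀ a ∈ Γ, ∀ b ∈ Γ, a * b ∈ Γ) (h1 : ∀ a ∈ Γ, ‖a‖ < 1) {ρ : ℝ} (hρ0 : 0 ≤ ρ)
    (hρ : ρ ≤ 1) {u v : ℕ → ℂ} (hu : Ex Γ ρ u) (hv : Ex Γ ρ v) : Ex Γ ρ (u * v) := by
  obtain ⟨P, hP, e1⟩ := hu
  obtain ⟨Q, hQ, e2⟩ := hv
  refine ⟨P * Q, EP.mul hΓ hP hQ, ?_⟩
  obtain ⟨a, ha0, ha1, ha⟩ := EP.bd h1 hP
  obtain ⟨b, hb0, hb1, hb⟩ := EP.bd h1 hQ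
  have h3 : u * v - P * Q = (u - P) * (v - Q) + ((u - P) * Q + P * (v - Q)) := by ring
  rw [h3]
  refine Bd.add ?_ (Bd.add ?_ ?_)
  · exact (e1.mul e2).mono (mul_nonneg hρ0 hρ0) (mul_le_of_le_one_right hρ0 hρ)
  · exact (e1.mul hb).mono (mul_nonneg hρ0 hb0) (mul_le_of_le_one_right hρ0 hb1.le)
  · exact (ha.mul e2).mono (mul_nonneg ha0 hρ0) (mul_le_of_le_one_left hρ0 ha1.le)

/-- the product of two small sequences -/
lemma Ex.mul_small (hΓ : ∀ a ∈ Γ, ∀ b ∈ Γ, a * b ∈ Γ) {ρ r : ℝ} (hρ0 : 0 ≤ ρ)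
    (hρ : ρ ≤ r) {u v : ℕ → ℂ} (hu : Ex Γ ρ u) (hv : Ex Γ ρ v)
    (hu' : Bd r u) (hv' : Bd r v) : Ex Γ (ρ * r) (u * v) := by
  obtain ⟨P, hP, e1⟩ := hu
  obtain ⟨Q, hQ, e2⟩ := hv
  refine ⟨P * Q, EP.mul hΓ hP hQ, ?_⟩
  have h3 : u * v - P * Q = (u - P) * v + (u - (u - P)) * (v - Q) := by ring
  rw [h3]
  refine Bd.add (e1.mul hv') ?_
  have h4 := (hu'.sub (e1.mono hρ0 hρ)).mul e2
  rwa [mul_comm] at h4

/-- the main scalar lemma -/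
lemma Ex.of_dl (h0 : ∀ a ∈ Γ, a ≠ 0) (h1 : ∀ a ∈ Γ, ‖a‖ < 1) {ν : ℂ} {ρ : ℝ} (hρ0 : 0 ≤ ρ)
    (hρ1 : ρ < 1) (hne : ‖ν‖ ≠ ρ) (hν : ‖ν‖ < 1 → ν = 0 ∨ ν ∈ Γ) {u : ℕ → ℂ}
    (hu : Ex Γ ρ (dl ν u)) (hu0 : Tendsto u atTop (𝓝 0)) : Ex Γ ρ u := by
  obtain ⟨P, hP, e1⟩ := hu
  obtain ⟨Q, hQ, h2⟩ := EP.dl_surj h0 ν hP
  obtain ⟨a, ha0, ha1, ha⟩ := EP.bd h1 hQ
  have hQ0 := ha.tendsto ha0 ha1
  have h3 : Bd ρ (dl ν (u - Q)) := by rwa [dl_sub, h2]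
  rcases lt_or_gt_of_ne hne with hlt | hgt
  · exact ⟨Q, hQ, rec_stable hlt h3⟩
  · obtain ⟨c, hc⟩ := rec_unstable hρ0 hgt h3
    by_cases hn1 : ‖ν‖ < 1
    · rcases hν hn1 with h0' | hmem
      · rw [h0', norm_zero] at hgt
        exact absurd hgt (not_lt.2 hρ0)
      · refine ⟨Q + c • (fun n : ℕ => (n : ℂ) ^ 0 * ν ^ n),
          Submodule.add_mem _ hQ (Submodule.smul_mem _ _ (EP.gen hmem 0)), ?_⟩
        convert hc using 1
        funext n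
        simp only [Pi.sub_apply, Pi.add_apply, Pi.smul_apply, smul_eq_mul, pow_zero, one_mul]
        ring
    · -- the coefficient is zero
      rw [not_lt] at hn1
      have h4 := hc.tendsto hρ0 hρ1
      have h5 : Tendsto (fun n => c * ν ^ n) atTop (𝓝 0) := by
        have h6 := (hu0.sub hQ0).sub h4
        simp only [sub_zero] at h6
        refine h6.congr fun n => ?_
        simp only [Pi.sub_apply]
        ring
      have hc0 : c = 0 := by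
        by_contra hc0
        have h6 := h5.norm
        rw [norm_zero] at h6
        have h7 : ∀ n, ‖c‖ ≤ ‖c * ν ^ n‖ := by
          intro n
          rw [norm_mul, norm_pow]
          exact le_mul_of_one_le_right (norm_nonneg _) (one_le_pow₀ hn1)
        have h8 := ge_of_tendsto' h6 h7
        exact hc0 (norm_le_zero_iff.1 h8)
      refine ⟨Q, hQ, ?_⟩
      convert hc using 1
      funext n
      simp only [Pi.sub_apply, hc0]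
      ring

end Pool.Agent.KS6_82.Att
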