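import Mathlib
import Pool.Agent.KS6_82.Att.Seq

/-!
# The dominant term
-/

set_option autoImplicit false

namespace Pool.Agent.KS6_82.Att

open Filter Topology Polynomial

variable {Γ : Set ℂ}

lemma Bd.fsum {ι : Type} (s : Finset ι) {ρ : ℝ} (u : ι → ℕ → ℂ) (h : ∀ i ∈ s, Bd ρ (u i)) :
    Bd ρ (fun n => ∑ i ∈ s, u i n) := by
  classical
  induction s using Finset.induction_on with
  | empty =>
    have : (fun n : ℕ => ∑ i ∈ (∅ : Finset ι), u i n) = 0 := by funext n; simp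
    rw [this]
    exact Bd.zero _
  | insert a s ha ih =>
    have h1 : (fun n => ∑ i ∈ insert a s, u i n) = u a + fun n => ∑ i ∈ s, u i n := by
      funext n
      rw [Finset.sum_insert ha]
      rfl
    rw [h1]
    exact (h a (Finset.mem_insert_self _ _)).add (ih fun i hi => h i (Finset.mem_insert_of_mem hi))

lemma bd_poly (p : ℂ[X]) (γ : ℂ) (ρ : ℝ) (h : ‖γ‖ < ρ) :
    Bd ρ fun n : ℕ => p.eval (n : ℂ) * γ ^ n := by
  induction p using Polynomial.induction_on' with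
  | add p q hp hq =>
    have := hp.add hq
    convert this using 1
    funext n
    simp only [eval_add, Pi.add_apply]
    ring
  | monomial k a =>
    have := (bd_pow k γ ρ h).smul a
    convert this using 1
    funext n
    simp only [eval_monomial, Pi.smul_apply, smul_eq_mul]
    ring

lemma poly_lower (p : ℂ[X]) (hp : p ≠ 0) : ∃ c > (0 : ℝ), ∀ᶠ n : ℕ in atTop, c ≤ ‖p.eval (n : ℂ)‖ := by
  rcases Nat.eq_zero_or_pos p.natDegree with h | h
  · rw [Polynomial.natDegree_eq_zero] at h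
    obtain ⟨a, rfl⟩ := h
    have ha : a ≠ 0 := by
      rintro rfl
      exact hp C_0
    refine ⟨‖a‖, norm_pos_iff.2 ha, ?_⟩
    filter_upwards with n
    rw [eval_C]
  · refine ⟨1, one_pos, ?_⟩
    have h1 : Tendsto (fun n : ℕ => ‖(n : ℂ)‖) atTop atTop := by
      simp only [Complex.norm_natCast]
      exact tendsto_natCast_atTop_atTop
    have h2 := p.tendsto_norm_atTop (natDegree_pos_iff_degree_pos.1 h) h1
    exact h2.eventually_ge_atTop 1

lemma EP.normal {u : ℕ → ℂ} (hu : u ∈ EP Γ) : ∃ f : ℂ →₀ ℂ[X], (∀ γ ∈ f.support, γ ∈ Γ) ∧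
    ∀ n : ℕ, u n = f.sum fun γ p => p.eval (n : ℂ) * γ ^ n := by
  classical
  induction hu using Submodule.span_induction with
  | mem u hu =>
    obtain ⟨a, ha, k, rfl⟩ := hu
    refine ⟨Finsupp.single a (X ^ k), fun γ hγ => ?_, fun n => ?_⟩
    · have := Finsupp.support_single_subset hγ
      rw [Finset.mem_singleton] at this
      rwa [this]
    · rw [Finsupp.sum_single_index (by simp)]
      simp
  | zero => exact ⟨0, by simp, fun n => by simp⟩
  | add x y _ _ hx hy =>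
    obtain ⟨f, hf, h1⟩ := hx
    obtain ⟨g, hg, h2⟩ := hy
    refine ⟨f + g, fun γ hγ => ?_, fun n => ?_⟩
    · rcases Finset.mem_union.1 (Finsupp.support_add hγ) with h | h
      · exact hf γ h
      · exact hg γ h
    · rw [Pi.add_apply, h1, h2, Finsupp.sum_add_index']
      · intro a; simp
      · intro a b c
        rw [eval_add, add_mul]
  | smul c x _ hx =>
    obtain ⟨f, hf, h1⟩ := hx
    refine ⟨c • f, fun γ hγ => hf γ (Finsupp.support_smul hγ), fun n => ?_⟩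
    rw [Pi.smul_apply, h1, Finsupp.sum_smul_index' (by intro a; simp), Finsupp.smul_sum]
    apply Finsupp.sum_congr
    intro a _
    rw [eval_smul, smul_eq_mul, smul_eq_mul]
    ring

lemma finset_gap (s : Finset ℂ) (M ρ : ℝ) (hρ : ρ < M) (h : ∀ γ ∈ s, ‖γ‖ < M) :
    ∃ τ, ρ ≤ τ ∧ τ < M ∧ ∀ γ ∈ s, ‖γ‖ < τ := by
  classical
  induction s using Finset.induction_on with
  | empty => exact ⟨ρ, le_rfl, hρ, by simp⟩
  | insert a s ha ih =>
    obtain ⟨τ, h1, h2, h3⟩ := ih fun γ hγ => h γ (Finset.mem_insert_of_mem hγ)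
    obtain ⟨τ', h4, h5⟩ := exists_between (max_lt h2 (h a (Finset.mem_insert_self _ _)))
    refine ⟨τ', h1.trans ((le_max_left _ _).trans h4.le), h5, fun γ hγ => ?_⟩
    rcases Finset.mem_insert.1 hγ with rfl | hγ
    · exact (le_max_right _ _).trans_lt h4
    · exact (h3 γ hγ).trans ((le_max_left _ _).trans_lt h4)

/-- the dominant term -/
lemma Ex.dominant (hC : ∀ a ∈ Γ, ∀ b ∈ Γ, ‖a‖ = ‖b‖ → a = b) {ρ σ : ℝ}
    (hρ0 : 0 ≤ ρ) (hρσ : ρ < σ) {u : ℕ → ℂ} (hu : Ex Γ ρ u) (hn : ¬ Bd σ u) :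
    ∃ γ ∈ Γ, σ ≤ ‖γ‖ ∧ ∃ c > (0 : ℝ), ∀ᶠ n in atTop, c * ‖γ‖ ^ n ≤ ‖u n‖ := by
  classical
  obtain ⟨P, hP, e1⟩ := hu
  obtain ⟨f, hf, hfP⟩ := EP.normal hP
  have hσ0 : 0 < σ := hρ0.trans_lt hρσ
  -- there is a large frequency
  have hF : (f.support.filter fun γ => σ ≤ ‖γ‖).Nonempty := by
    by_contra hemp
    apply hn
    rw [Finset.not_nonempty_iff_eq_empty] at hemp
    have h1 : ∀ γ ∈ f.support, ‖γ‖ < σ := by
      intro γ hγ
      by_contra hle
      rw [not_lt] at hle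
      have : γ ∈ (f.support.filter fun γ => σ ≤ ‖γ‖) := Finset.mem_filter.2 ⟨hγ, hle⟩
      rw [hemp] at this
      exact absurd this (Finset.notMem_empty _)
    have h2 : Bd σ P := by
      have h3 : P = fun n : ℕ => ∑ γ ∈ f.support, (f γ).eval (n : ℂ) * γ ^ n := by
        funext n
        rw [hfP, Finsupp.sum]
      rw [h3]
      exact Bd.fsum _ _ fun γ hγ => bd_poly _ _ _ (h1 γ hγ)
    have h3 := (e1.mono hρ0 hρσ.le).add h2
    rwa [sub_add_cancel] at h3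
  obtain ⟨γ, hγ, hmax⟩ := Finset.exists_max_image _ (fun γ => ‖γ‖) hF
  obtain ⟨hγs, hγσ⟩ := Finset.mem_filter.1 hγ
  refine ⟨γ, hf γ hγs, hγσ, ?_⟩
  have hγ0 : 0 < ‖γ‖ := hσ0.trans_le hγσ
  -- the other frequencies are smaller
  have hoth : ∀ δ ∈ f.support.erase γ, ‖δ‖ < ‖γ‖ := by
    intro δ hδ
    obtain ⟨hne, hδs⟩ := Finset.mem_erase.1 hδ
    by_cases hδσ : σ ≤ ‖δ‖
    · apply lt_of_le_of_ne (hmax δ (Finset.mem_filter.2 ⟨hδs, hδσ⟩))
      intro h
      exact hne (hC δ (hf δ hδs) γ (hf γ hγs) h)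
    · exact (not_le.1 hδσ).trans_le hγσ
  obtain ⟨τ, hτ1, hτ2, hτ3⟩ := finset_gap (f.support.erase γ) ‖γ‖ ρ (hρσ.trans_le hγσ) hoth
  have hτ0 : 0 ≤ τ := hρ0.trans hτ1
  have hrest : Bd τ (fun n => u n - (f γ).eval (n : ℂ) * γ ^ n) := by
    have h3 : (fun n => u n - (f γ).eval (n : ℂ) * γ ^ n) =
        (u - P) + fun n : ℕ => ∑ γ ∈ f.support.erase γ, (f γ).eval (n : ℂ) * γ ^ n := by
      funext n
      simp only [Pi.add_apply, Pi.sub_apply]
      have h4 := hfP n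
      rw [Finsupp.sum, ← Finset.add_sum_erase _ _ hγs] at h4
      rw [h4]
      ring
    rw [h3]
    exact (e1.mono hρ0 hτ1).add (Bd.fsum _ _ fun δ hδ => bd_poly _ _ _ (hτ3 δ hδ))
  obtain ⟨c, hc, hlow⟩ := poly_lower (f γ) (Finsupp.mem_support_iff.1 hγs)
  obtain ⟨C, hC0, hCb⟩ := hrest.nonneg
  refine ⟨c / 2, half_pos hc, ?_⟩
  -- `C τ ^ n ≤ (c / 2) ‖γ‖ ^ n`
  have h5 : Tendsto (fun n : ℕ => C * (τ / ‖γ‖) ^ n) atTop (𝓝 0) := by
    have := (tendsto_pow_atTop_nhds_zero_of_lt_one (div_nonneg hτ0 hγ0.le)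
      ((div_lt_one hγ0).2 hτ2)).const_mul C
    simpa using this
  filter_upwards [hlow, h5.eventually_lt_const (half_pos hc)] with n h6 h7
  have h8 : C * τ ^ n ≤ c / 2 * ‖γ‖ ^ n := by
    rw [div_pow, ← mul_div_assoc] at h7
    have := (div_lt_iff₀ (pow_pos hγ0 n)).1 h7
    exact this.le
  have h9 : c * ‖γ‖ ^ n ≤ ‖(f γ).eval (n : ℂ) * γ ^ n‖ := by
    rw [norm_mul, norm_pow]
    exact mul_le_mul_of_nonneg_right h6 (pow_nonneg hγ0.le n)
  have h10 := norm_sub_norm_le ((f γ).eval (n : ℂ) * γ ^ n)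
    ((f γ).eval (n : ℂ) * γ ^ n - u n)
  rw [sub_sub_cancel, norm_sub_rev ((f γ).eval (n : ℂ) * γ ^ n) (u n)] at h10
  have h11 := hCb n
  calc c / 2 * ‖γ‖ ^ n = c * ‖γ‖ ^ n - c / 2 * ‖γ‖ ^ n := by ring
    _ ≤ ‖u n‖ := by linarith

/-- sequences with expansions of every order are superexponentially small or eventually large -/
lemma dichotomy (hC : ∀ a ∈ Γ, ∀ b ∈ Γ, ‖a‖ = ‖b‖ → a = b) {u : ℕ → ℂ}
    (hu : ∀ σ > (0 : ℝ), ∃ ρ, 0 ≤ ρ ∧ ρ < σ ∧ Ex Γ ρ u) :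
    (∀ σ > (0 : ℝ), Bd σ u) ∨ ∃ γ ∈ Γ, 0 < ‖γ‖ ∧ ∃ c > (0 : ℝ), ∀ᶠ n in atTop, c * ‖γ‖ ^ n ≤ ‖u n‖ := by
  by_cases h : ∀ σ > (0 : ℝ), Bd σ u
  · exact Or.inl h
  · right
    push Not at h
    obtain ⟨σ, hσ, hn⟩ := h
    obtain ⟨ρ, hρ0, hρσ, he⟩ := hu σ hσ
    obtain ⟨γ, hγ, hγσ, hc⟩ := he.dominant hC hρ0 hρσ hn
    exact ⟨γ, hγ, hσ.trans_le hγσ, hc⟩

/-! ### Vectors -/

variable {M : ℕ}

/-- expansions of the coordinates -/
def ExV (Γ : Set ℂ) (ρ : ℝ) (w : ℕ → Fin M → ℂ) : Prop := ∀ i, Ex Γ ρ fun n => w n i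

lemma Ex.fsum {ι : Type} (s : Finset ι) {ρ : ℝ} (u : ι → ℕ → ℂ) (h : ∀ i ∈ s, Ex Γ ρ (u i)) :
    Ex Γ ρ (fun n => ∑ i ∈ s, u i n) := by
  classical
  induction s using Finset.induction_on with
  | empty =>
    have : (fun n : ℕ => ∑ i ∈ (∅ : Finset ι), u i n) = 0 := by funext n; simp
    rw [this]
    exact Ex.zero _
  | insert a s ha ih =>
    have h1 : (fun n => ∑ i ∈ insert a s, u i n) = u a + fun n => ∑ i ∈ s, u i n := by
      funext n
      rw [Finset.sum_insert ha]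
      rfl
    rw [h1]
    exact (h a (Finset.mem_insert_self _ _)).add (ih fun i hi => h i (Finset.mem_insert_of_mem hi))

lemma lin_apply (T : (Fin M → ℂ) →ₗ[ℂ] (Fin M → ℂ)) (x : Fin M → ℂ) (i : Fin M) :
    T x i = ∑ j, x j * T (Pi.single j 1) i := by
  have h := congrFun (LinearMap.pi_apply_eq_sum_univ T x) i
  rw [h]
  simp only [Finset.sum_apply, Pi.smul_apply, smul_eq_mul]
  apply Finset.sum_congr rfl
  intro j _
  have h2 : (fun k => if j = k then (1 : ℂ) else 0) = Pi.single j 1 := by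
    funext k
    rw [Pi.single_apply]
    simp only [eq_comm]
  rw [h2]

lemma ExV.lin {ρ : ℝ} {w : ℕ → Fin M → ℂ} (hw : ExV Γ ρ w)
    (T : (Fin M → ℂ) →ₗ[ℂ] (Fin M → ℂ)) : ExV Γ ρ fun n => T (w n) := by
  intro i
  have h2 : (fun n => T (w n) i) = fun n => ∑ j, w n j * T (Pi.single j 1) i := by
    funext n
    exact lin_apply T (w n) i
  rw [h2]
  apply Ex.fsum
  intro j _
  have := (hw j).smul (T (Pi.single j 1) i)
  convert this using 1
  funext n
  simp only [Pi.smul_apply, smul_eq_mul]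
  ring

lemma ExV.add {ρ : ℝ} {w v : ℕ → Fin M → ℂ} (hw : ExV Γ ρ w) (hv : ExV Γ ρ v) :
    ExV Γ ρ fun n => w n + v n := fun i => (hw i).add (hv i)

lemma tendsto_lin {w : ℕ → Fin M → ℂ} (hw : Tendsto w atTop (𝓝 0))
    (T : (Fin M → ℂ) →ₗ[ℂ] (Fin M → ℂ)) : Tendsto (fun n => T (w n)) atTop (𝓝 0) := by
  have h := (LinearMap.continuous_of_finiteDimensional T).tendsto 0
  rw [map_zero] at h
  exact h.comp hw

/-- the vector recursion -/
lemma ExV.of_rec (h0 : ∀ a ∈ Γ, a ≠ 0) (h1 : ∀ a ∈ Γ, ‖a‖ < 1) {ρ : ℝ} (hρ0 : 0 ≤ ρ)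
    (hρ1 : ρ < 1) (T : (Fin M → ℂ) →ₗ[ℂ] (Fin M → ℂ)) {w e : ℕ → Fin M → ℂ}
    (hrec : ∀ n, w (n + 1) = T (w n) + e n) (he : ExV Γ ρ e) (hw : Tendsto w atTop (𝓝 0))
    (l : List ℂ) : ∀ (_ : ∀ ν ∈ l, ‖ν‖ ≠ ρ ∧ (‖ν‖ < 1 → ν = 0 ∨ ν ∈ Γ))
      (B : Module.End ℂ (Fin M → ℂ)) (_ : B * T = T * B)
      (_ : aeval T (l.map fun ν => X - C ν).prod * B = 0), ExV Γ ρ fun n => B (w n) := by
  induction l with
  | nil =>
    intro _ B _ hB i
    simp only [List.map_nil, List.prod_nil, map_one, one_mul] at hB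
    subst hB
    simp only [LinearMap.zero_apply, Pi.zero_apply]
    exact Ex.zero _
  | cons a l ih =>
    intro hl B hcom hB
    set B' : Module.End ℂ (Fin M → ℂ) := aeval T (X - C a) * B with hB'
    have hTa : aeval T (X - C a) = T - algebraMap ℂ (Module.End ℂ (Fin M → ℂ)) a := by
      rw [map_sub, aeval_X, aeval_C]
    have hcom' : B' * T = T * B' := by
      rw [hB', mul_assoc, hcom, ← mul_assoc, ← mul_assoc]
      congr 1
      rw [hTa, sub_mul, mul_sub, Algebra.commutes]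
    have h2 : aeval T (l.map fun ν => X - C ν).prod * B' = 0 := by
      rw [List.map_cons, List.prod_cons, mul_comm, map_mul, mul_assoc] at hB
      exact hB
    have h3 := ih (fun ν hν => hl ν (List.mem_cons_of_mem _ hν)) B' hcom' h2
    obtain ⟨ha1, ha2⟩ := hl a List.mem_cons_self
    intro i
    refine Ex.of_dl h0 h1 hρ0 hρ1 ha1 ha2 ?_ ?_
    · have h4 := (h3 i).add ((he.lin B) i)
      convert h4 using 1
      funext n
      simp only [dl, Pi.add_apply]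
      rw [hrec, map_add]
      have h5 : B (T (w n)) = T (B (w n)) := by
        have := LinearMap.congr_fun hcom (w n)
        exact this
      have h6 : B' (w n) = T (B (w n)) - a • B (w n) := by
        rw [hB', hTa]
        simp [Module.algebraMap_end_apply]
      rw [h5, h6]
      simp only [Pi.add_apply, Pi.sub_apply, Pi.smul_apply, smul_eq_mul]
      ring
    · have := tendsto_lin hw B
      exact (tendsto_pi_nhds.1 this) i

end Pool.Agent.KS6_82.Att
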