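import Mathlib

/-!
# Ideals invariant under a polynomial map which is étale at a fixed point
-/

set_option autoImplicit false

namespace Pool.Agent.KS6_82.Att

open MvPolynomial

variable {M : ℕ}

/-- the ideal of the point `z` -/
noncomputable def mz (z : Fin M → ℂ) : Ideal (MvPolynomial (Fin M) ℂ) := RingHom.ker (eval z)

lemma mem_mz {z : Fin M → ℂ} {h : MvPolynomial (Fin M) ℂ} : h ∈ mz z ↔ eval z h = 0 :=
  RingHom.mem_ker

lemma sub_mem_mz (z : Fin M → ℂ) (h : MvPolynomial (Fin M) ℂ) : h - C (eval z h) ∈ mz z := by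
  rw [mem_mz, map_sub, eval_C, sub_self]

lemma X_sub_mem_mz (z : Fin M → ℂ) (i : Fin M) : X i - C (z i) ∈ mz z := by
  rw [mem_mz, map_sub, eval_C, eval_X, sub_self]

/-- the Taylor formula -/
lemma taylor (z : Fin M → ℂ) (h : MvPolynomial (Fin M) ℂ) :
    h - C (eval z h) - ∑ j, C (eval z (pderiv j h)) * (X j - C (z j)) ∈ mz z ^ 2 := by
  classical
  induction h using MvPolynomial.induction_on with
  | C a => simp
  | add p q hp hq =>
    have := Ideal.add_mem _ hp hq
    convert this using 1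
    simp only [map_add, add_mul, Finset.sum_add_distrib]
    ring
  | mul_X h i ih =>
    set S := ∑ j, C (eval z (pderiv j h)) * (X j - C (z j)) with hS
    have hSm : S ∈ mz z := Ideal.sum_mem _ fun j _ => Ideal.mul_mem_left _ _ (X_sub_mem_mz z j)
    have h1 : ∑ j, C (eval z (pderiv j (h * X i))) * (X j - C (z j)) =
        C (z i) * S + C (eval z h) * (X i - C (z i)) := by
      have h2 : ∀ j, C (eval z (pderiv j (h * X i))) * (X j - C (z j)) =
          C (z i) * (C (eval z (pderiv j h)) * (X j - C (z j))) +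
            (if j = i then C (eval z h) * (X j - C (z j)) else 0) := by
        intro j
        rw [Derivation.leibniz, pderiv_X, smul_eq_mul, smul_eq_mul]
        by_cases hj : j = i
        · subst hj
          simp only [Pi.single_eq_same, mul_one, if_true, map_add, map_mul, eval_X]
          ring
        · rw [if_neg hj]
          have : (Pi.single j 1 : Fin M → MvPolynomial (Fin M) ℂ) i = 0 := by
            rw [Pi.single_apply, if_neg (Ne.symm hj)]
          rw [this]
          simp only [mul_zero, map_add, map_mul, eval_X, map_zero]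
          ring
      simp_rw [h2]
      rw [Finset.sum_add_distrib, Finset.sum_ite_eq' Finset.univ i, ← Finset.mul_sum,
        if_pos (Finset.mem_univ i)]
    rw [h1, map_mul, eval_X]
    have h3 : h * X i - C (eval z h * z i) - (C (z i) * S + C (eval z h) * (X i - C (z i))) =
        X i * (h - C (eval z h) - S) + S * (X i - C (z i)) := by
      rw [map_mul]
      ring
    rw [h3]
    refine Ideal.add_mem _ (Ideal.mul_mem_left _ _ ih) ?_
    rw [pow_two]
    exact Ideal.mul_mem_mul hSm (X_sub_mem_mz z i)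

variable (G : Fin M → MvPolynomial (Fin M) ℂ)

/-- the comorphism -/
noncomputable def phi : MvPolynomial (Fin M) ℂ →+* MvPolynomial (Fin M) ℂ :=
  (bind₁ G : MvPolynomial (Fin M) ℂ →ₐ[ℂ] MvPolynomial (Fin M) ℂ).toRingHom

lemma phi_X (i : Fin M) : phi G (X i) = G i := bind₁_X_right G i

lemma phi_C (a : ℂ) : phi G (C a) = C a := bind₁_C_right G a

lemma eval_phi (x : Fin M → ℂ) (h : MvPolynomial (Fin M) ℂ) :
    eval x (phi G h) = eval (fun i => eval x (G i)) h := by
  exact MvPolynomial.eval₂Hom_bind₁ (RingHom.id ℂ) x G h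

variable {G} {z : Fin M → ℂ}

lemma phi_mem (hz : ∀ i, eval z (G i) = z i) {h : MvPolynomial (Fin M) ℂ} (hh : h ∈ mz z) :
    phi G h ∈ mz z := by
  rw [mem_mz] at hh ⊢
  rw [eval_phi]
  have : (fun i => eval z (G i)) = z := funext hz
  rw [this, hh]

lemma phi_mem_pow (hz : ∀ i, eval z (G i) = z i) (k : ℕ) {h : MvPolynomial (Fin M) ℂ}
    (hh : h ∈ mz z ^ k) : phi G h ∈ mz z ^ k := by
  have h1 : Ideal.map (phi G) (mz z ^ k) ≤ mz z ^ k := by
    rw [Ideal.map_pow]
    apply Ideal.pow_right_mono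
    rw [Ideal.map_le_iff_le_comap]
    intro x hx
    exact phi_mem hz hx
  exact h1 (Ideal.mem_map_of_mem _ hh)

/-- surjectivity on the cotangent space -/
lemma surj_one (hz : ∀ i, eval z (G i) = z i)
    (hL : IsUnit (Matrix.of fun i j => eval z (pderiv j (G i)) : Matrix (Fin M) (Fin M) ℂ))
    {h : MvPolynomial (Fin M) ℂ} (hh : h ∈ mz z) :
    ∃ h' ∈ mz z, h - phi G h' ∈ mz z ^ 2 := by
  classical
  set L : Matrix (Fin M) (Fin M) ℂ := Matrix.of fun i j => eval z (pderiv j (G i)) with hLdef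
  set c : Fin M → ℂ := fun j => eval z (pderiv j h) with hc
  set c' : Fin M → ℂ := Matrix.vecMul c L⁻¹ with hc'
  have h1 : Matrix.vecMul c' L = c := by
    rw [hc', Matrix.vecMul_vecMul, Matrix.nonsing_inv_mul _ ((Matrix.isUnit_iff_isUnit_det _).1 hL),
      Matrix.vecMul_one]
  refine ⟨∑ i, C (c' i) * (X i - C (z i)),
    Ideal.sum_mem _ fun i _ => Ideal.mul_mem_left _ _ (X_sub_mem_mz z i), ?_⟩
  have h2 : phi G (∑ i, C (c' i) * (X i - C (z i))) = ∑ i, C (c' i) * (G i - C (z i)) := by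
    rw [map_sum]
    apply Finset.sum_congr rfl
    intro i _
    rw [map_mul, map_sub, phi_C, phi_C, phi_X]
  rw [h2]
  have h3 : ∑ i, C (c' i) * (∑ j, C (eval z (pderiv j (G i))) * (X j - C (z j))) =
      ∑ j, C (c j) * (X j - C (z j)) := by
    simp_rw [Finset.mul_sum]
    rw [Finset.sum_comm]
    apply Finset.sum_congr rfl
    intro j _
    have h4 := congrFun h1 j
    rw [← h4, Matrix.vecMul, dotProduct, map_sum, Finset.sum_mul]
    apply Finset.sum_congr rfl
    intro i _
    rw [map_mul, hLdef, Matrix.of_apply]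
    ring
  have h5 : ∑ i, C (c' i) * (G i - C (z i) -
      ∑ j, C (eval z (pderiv j (G i))) * (X j - C (z j))) ∈ mz z ^ 2 := by
    apply Ideal.sum_mem
    intro i _
    apply Ideal.mul_mem_left
    have := taylor z (G i)
    rwa [hz i] at this
  have h6 := taylor z h
  rw [mem_mz.1 hh, map_zero, sub_zero] at h6
  have h7 : h - ∑ i, C (c' i) * (G i - C (z i)) =
      (h - ∑ j, C (c j) * (X j - C (z j))) - ∑ i, C (c' i) * (G i - C (z i) -
        ∑ j, C (eval z (pderiv j (G i))) * (X j - C (z j))) := by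
    have h8 : ∑ i, C (c' i) * (G i - C (z i) -
        ∑ j, C (eval z (pderiv j (G i))) * (X j - C (z j))) = ∑ i, C (c' i) * (G i - C (z i)) -
        ∑ i, C (c' i) * (∑ j, C (eval z (pderiv j (G i))) * (X j - C (z j))) := by
      rw [← Finset.sum_sub_distrib]
      apply Finset.sum_congr rfl
      intro i _
      ring
    rw [h8, h3]
    ring
  rw [h7]
  exact Ideal.sub_mem _ h6 h5

lemma surj_k (hz : ∀ i, eval z (G i) = z i)
    (hL : IsUnit (Matrix.of fun i j => eval z (pderiv j (G i)) : Matrix (Fin M) (Fin M) ℂ))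
    (k : ℕ) : ∀ h ∈ mz z ^ k, ∃ h' ∈ mz z ^ k, h - phi G h' ∈ mz z ^ (k + 1) := by
  induction k with
  | zero =>
    intro h _
    refine ⟨C (eval z h), by simp, ?_⟩
    rw [phi_C, zero_add, pow_one]
    exact sub_mem_mz z h
  | succ k ih =>
    intro h hh
    rw [pow_succ] at hh
    refine Submodule.mul_induction_on hh ?_ ?_
    · intro a ha b hb
      obtain ⟨a', ha', h1⟩ := ih a ha
      obtain ⟨b', hb', h2⟩ := surj_one hz hL hb
      refine ⟨a' * b', ?_, ?_⟩
      · rw [pow_succ]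
        exact Ideal.mul_mem_mul ha' hb'
      · have h3 : a * b - phi G (a' * b') = a * (b - phi G b') + (a - phi G a') * phi G b' := by
          rw [map_mul]
          ring
        rw [h3]
        apply Ideal.add_mem
        · rw [show k + 1 + 1 = k + 2 by ring, pow_add]
          exact Ideal.mul_mem_mul ha h2
        · rw [pow_succ _ (k + 1)]
          exact Ideal.mul_mem_mul h1 (phi_mem hz hb')
    · rintro x y ⟨x', hx', h1⟩ ⟨y', hy', h2⟩
      refine ⟨x' + y', Ideal.add_mem _ hx' hy', ?_⟩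
      rw [map_add, add_sub_add_comm]
      exact Ideal.add_mem _ h1 h2

lemma surj_all (hz : ∀ i, eval z (G i) = z i)
    (hL : IsUnit (Matrix.of fun i j => eval z (pderiv j (G i)) : Matrix (Fin M) (Fin M) ℂ))
    (k : ℕ) (h : MvPolynomial (Fin M) ℂ) : ∃ h', h - phi G h' ∈ mz z ^ k := by
  induction k with
  | zero => exact ⟨0, by simp⟩
  | succ k ih =>
    obtain ⟨h', h1⟩ := ih
    obtain ⟨h'', _, h2⟩ := surj_k hz hL k _ h1
    refine ⟨h' + h'', ?_⟩
    rw [map_add, ← sub_sub]
    exact h2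

lemma surj_iter (hz : ∀ i, eval z (G i) = z i)
    (hL : IsUnit (Matrix.of fun i j => eval z (pderiv j (G i)) : Matrix (Fin M) (Fin M) ℂ))
    (k n : ℕ) : ∀ h : MvPolynomial (Fin M) ℂ, ∃ h', h - (phi G ^ n) h' ∈ mz z ^ k := by
  induction n with
  | zero => intro h; exact ⟨h, by simp⟩
  | succ n ih =>
    intro h
    obtain ⟨h1, e1⟩ := surj_all hz hL k h
    obtain ⟨h2, e2⟩ := ih h1
    refine ⟨h2, ?_⟩
    have h3 : h - (phi G ^ (n + 1)) h2 = (h - phi G h1) + phi G (h1 - (phi G ^ n) h2) := by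
      rw [pow_succ', RingHom.mul_def, RingHom.comp_apply, map_sub]
      ring
    rw [h3]
    exact Ideal.add_mem _ e1 (phi_mem_pow hz k e2)

/-- an invariant ideal is generated by its image, up to powers of the maximal ideal -/
lemma le_map_sup (hz : ∀ i, eval z (G i) = z i)
    (hL : IsUnit (Matrix.of fun i j => eval z (pderiv j (G i)) : Matrix (Fin M) (Fin M) ℂ))
    (J : Ideal (MvPolynomial (Fin M) ℂ)) (hJ : ∀ h ∈ J, phi G h ∈ J) (k : ℕ) :
    J ≤ Ideal.map (phi G) J ⊔ mz z ^ k := by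
  set Jk := J ⊔ mz z ^ k with hJk
  have hst : ∀ h ∈ Jk, phi G h ∈ Jk := by
    intro h hh
    obtain ⟨a, ha, b, hb, rfl⟩ := Submodule.mem_sup.1 hh
    rw [map_add]
    exact Submodule.add_mem_sup (hJ a ha) (phi_mem_pow hz k hb)
  have hmono : Monotone fun n : ℕ => Jk.comap (phi G ^ n) := by
    apply monotone_nat_of_le_succ
    intro n h hh
    rw [Ideal.mem_comap] at hh ⊢
    rw [pow_succ', RingHom.mul_def, RingHom.comp_apply]
    exact hst _ hh
  obtain ⟨n, hn⟩ := monotone_stabilizes_iff_noetherian.2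
    (inferInstance : IsNoetherian (MvPolynomial (Fin M) ℂ) (MvPolynomial (Fin M) ℂ))
    ⟨fun n : ℕ => Jk.comap (phi G ^ n), hmono⟩
  have hn' : Jk.comap (phi G ^ n) = Jk.comap (phi G ^ (n + 1)) := hn (n + 1) (Nat.le_succ n)
  intro h hh
  obtain ⟨b, hb⟩ := surj_iter hz hL k (n + 1) h
  have h1 : (phi G ^ (n + 1)) b ∈ Jk := by
    have h2 : (phi G ^ (n + 1)) b = h - (h - (phi G ^ (n + 1)) b) := by ring
    rw [h2]
    exact Ideal.sub_mem _ (Ideal.mem_sup_left hh) (Ideal.mem_sup_right hb)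
  have h2 : b ∈ Jk.comap (phi G ^ n) := by
    rw [hn']
    exact h1
  rw [Ideal.mem_comap] at h2
  obtain ⟨j, hj, e, he, hje⟩ := Submodule.mem_sup.1 h2
  have h3 : h = phi G j + (phi G e + (h - (phi G ^ (n + 1)) b)) := by
    rw [← add_assoc, ← map_add, hje, pow_succ', RingHom.mul_def, RingHom.comp_apply]
    ring
  rw [h3]
  exact Submodule.add_mem_sup (Ideal.mem_map_of_mem _ hj)
    (Ideal.add_mem _ (phi_mem_pow hz k he) hb)

/-- an invariant ideal is locally generated by its image -/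
lemma local_map (hz : ∀ i, eval z (G i) = z i)
    (hL : IsUnit (Matrix.of fun i j => eval z (pderiv j (G i)) : Matrix (Fin M) (Fin M) ℂ))
    (J : Ideal (MvPolynomial (Fin M) ℂ)) (hJ : ∀ h ∈ J, phi G h ∈ J)
    (h : MvPolynomial (Fin M) ℂ) (hh : h ∈ J) :
    ∃ a ∈ mz z, (1 - a) * h ∈ Ideal.map (phi G) J := by
  set I := Ideal.map (phi G) J with hI
  have h1 : (Ideal.Quotient.mk I h : MvPolynomial (Fin M) ℂ ⧸ I) ∈
      (⨅ i : ℕ, (mz z) ^ i • ⊤ : Submodule (MvPolynomial (Fin M) ℂ) (MvPolynomial (Fin M) ℂ ⧸ I)) := by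
    rw [Submodule.mem_iInf]
    intro k
    obtain ⟨a, ha, b, hb, hab⟩ := Submodule.mem_sup.1 (le_map_sup hz hL J hJ k hh)
    have h2 : (Ideal.Quotient.mk I h) = b • (1 : MvPolynomial (Fin M) ℂ ⧸ I) := by
      rw [← hab, map_add, Ideal.Quotient.eq_zero_iff_mem.2 ha, zero_add,
        show (b • (1 : MvPolynomial (Fin M) ℂ ⧸ I)) = Ideal.Quotient.mk I (b • 1) from rfl,
        smul_eq_mul, mul_one]
    rw [h2]
    exact Submodule.smul_mem_smul hb Submodule.mem_top
  rw [Ideal.mem_iInf_smul_pow_eq_bot_iff] at h1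
  obtain ⟨⟨a, ha⟩, h2⟩ := h1
  refine ⟨a, ha, ?_⟩
  rw [← Ideal.Quotient.eq_zero_iff_mem, sub_mul, one_mul, map_sub, sub_eq_zero]
  have h3 : (a • (Ideal.Quotient.mk I h : MvPolynomial (Fin M) ℂ ⧸ I)) =
      Ideal.Quotient.mk I (a * h) := rfl
  rw [← h3]
  exact h2.symm

end Pool.Agent.KS6_82.Att
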