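import Mathlib
import Pool.Agent.KS6_82.Att.Dom
import Pool.Agent.KS6_82.Att.Ideal

/-!
# Orbits converging exponentially to a fixed point
-/

set_option autoImplicit false

namespace Pool.Agent.KS6_82.Att

open Filter Topology MvPolynomial

variable {M : ℕ} {Γ : Set ℂ} {z : Fin M → ℂ} {Z : ℕ → Fin M → ℂ}

lemma exists_radius (r : ℝ) (hr : r < 1) (hr0 : 0 < r) (l : List ℂ) :
    ∃ r', r < r' ∧ r' < 1 ∧ ∀ k : ℕ, 1 ≤ k → ∀ ν ∈ l, ‖ν‖ ≠ r' ^ k := by
  have hc : (⋃ k : ℕ, ⋃ ν ∈ {ν | ν ∈ l}, {x : ℝ | 0 < x ∧ 1 ≤ k ∧ ‖ν‖ = x ^ k}).Countable := by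
    apply Set.countable_iUnion
    intro k
    apply Set.Countable.biUnion (List.finite_toSet l).countable
    intro ν _
    apply Set.Subsingleton.countable
    rintro x ⟨hx, hk, h1⟩ y ⟨hy, _, h2⟩
    exact (pow_left_inj₀ hx.le hy.le (by omega)).1 (h1.symm.trans h2)
  obtain ⟨x, hx, hx1⟩ := (hc.dense_compl ℝ).exists_mem_open isOpen_Ioo (Set.nonempty_Ioo.2 hr)
  refine ⟨x, hx1.1, hx1.2, fun k hk ν hν h => hx ?_⟩
  simp only [Set.mem_iUnion]
  exact ⟨k, ν, hν, hr0.trans hx1.1, hk, h⟩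

/-- expansions of all polynomials -/
lemma ex_eval (hΓ : ∀ a ∈ Γ, ∀ b ∈ Γ, a * b ∈ Γ) (h1 : ∀ a ∈ Γ, ‖a‖ < 1) {ρ : ℝ} (hρ0 : 0 ≤ ρ)
    (hρ : ρ ≤ 1) (hZ : ∀ i, Ex Γ ρ fun n => Z n i - z i) (h : MvPolynomial (Fin M) ℂ) :
    Ex Γ ρ fun n => eval (Z n) h - eval z h := by
  induction h using MvPolynomial.induction_on with
  | C a =>
    have : (fun n => eval (Z n) (C a : MvPolynomial (Fin M) ℂ) - eval z (C a)) = 0 := by
      funext n; simp
    rw [this]
    exact Ex.zero _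
  | add p q hp hq =>
    have := hp.add hq
    convert this using 1
    funext n
    simp only [map_add, Pi.add_apply]
    ring
  | mul_X h i ih =>
    have h2 := ((ih.mul hΓ h1 hρ0 hρ (hZ i)).add (ih.smul (z i))).add ((hZ i).smul (eval z h))
    convert h2 using 1
    funext n
    simp only [map_mul, eval_X, Pi.add_apply, Pi.mul_apply, Pi.smul_apply, smul_eq_mul]
    ring

lemma bd_eval {ρ : ℝ} (hρ0 : 0 ≤ ρ) (hρ : ρ ≤ 1) (hZ : ∀ i, Bd ρ fun n => Z n i - z i)
    (h : MvPolynomial (Fin M) ℂ) : Bd ρ fun n => eval (Z n) h - eval z h := by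
  obtain ⟨P, hP, h2⟩ := ex_eval (Γ := ∅) (by simp) (by simp) hρ0 hρ
    (fun i => Ex.of_bd (hZ i)) h
  have h3 : EP ∅ = ⊥ := by
    rw [EP, Submodule.span_eq_bot]
    rintro u ⟨γ, hγ, _⟩
    exact absurd hγ (Set.notMem_empty _)
  rw [h3, Submodule.mem_bot] at hP
  rwa [hP, sub_zero] at h2

/-- elements of the square of the ideal -/
lemma ex_sq (hΓ : ∀ a ∈ Γ, ∀ b ∈ Γ, a * b ∈ Γ) (h1 : ∀ a ∈ Γ, ‖a‖ < 1) {ρ r : ℝ} (hρ0 : 0 ≤ ρ)
    (hρ : ρ ≤ r) (hr : r ≤ 1) (hZ : ∀ i, Ex Γ ρ fun n => Z n i - z i)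
    (hZ' : ∀ i, Bd r fun n => Z n i - z i) (h : MvPolynomial (Fin M) ℂ) (hh : h ∈ mz z ^ 2) :
    Ex Γ (ρ * r) fun n => eval (Z n) h := by
  rw [pow_two] at hh
  refine Submodule.mul_induction_on hh ?_ ?_
  · intro a ha b hb
    have ha1 := ex_eval hΓ h1 hρ0 (hρ.trans hr) hZ a
    have hb1 := ex_eval hΓ h1 hρ0 (hρ.trans hr) hZ b
    have ha2 := bd_eval (hρ0.trans hρ) hr hZ' a
    have hb2 := bd_eval (hρ0.trans hρ) hr hZ' b
    rw [mem_mz.1 ha] at ha1 ha2
    rw [mem_mz.1 hb] at hb1 hb2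
    simp only [sub_zero] at ha1 hb1 ha2 hb2
    have := Ex.mul_small hΓ hρ0 hρ ha1 hb1 ha2 hb2
    convert this using 1
    funext n
    simp
  · intro x y hx hy
    have := hx.add hy
    convert this using 1
    funext n
    simp

/-- the linear part -/
noncomputable def linT (z : Fin M → ℂ) (G : Fin M → MvPolynomial (Fin M) ℂ) :
    Module.End ℂ (Fin M → ℂ) :=
  Matrix.mulVecLin (Matrix.of fun i j => eval z (pderiv j (G i)))

lemma linT_apply (z : Fin M → ℂ) (G : Fin M → MvPolynomial (Fin M) ℂ) (v : Fin M → ℂ) (i : Fin M) :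
    linT z G v i = ∑ j, eval z (pderiv j (G i)) * v j := rfl

variable {G : Fin M → MvPolynomial (Fin M) ℂ}

/-- expansions of the orbit -/
lemma ex_orbit (hΓ : ∀ a ∈ Γ, ∀ b ∈ Γ, a * b ∈ Γ) (h0 : ∀ a ∈ Γ, a ≠ 0) (h1 : ∀ a ∈ Γ, ‖a‖ < 1)
    {r : ℝ} (hr0 : 0 < r) (hr1 : r < 1) (hz : ∀ i, eval z (G i) = z i)
    (hrec : ∀ n i, Z (n + 1) i = eval (Z n) (G i)) (hZ : ∀ i, Bd r fun n => Z n i - z i)
    (l : List ℂ) (hl : ∀ ν ∈ l, ∀ k : ℕ, 1 ≤ k → ‖ν‖ ≠ r ^ k)
    (hlΓ : ∀ ν ∈ l, ‖ν‖ < 1 → ν = 0 ∨ ν ∈ Γ)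
    (hT : Polynomial.aeval (linT z G) (l.map fun ν => Polynomial.X - Polynomial.C ν).prod = 0)
    (k : ℕ) : ∀ i, Ex Γ (r ^ (k + 1)) fun n => Z n i - z i := by
  induction k with
  | zero =>
    intro i
    rw [zero_add, pow_one]
    exact Ex.of_bd (hZ i)
  | succ k ih =>
    set w : ℕ → Fin M → ℂ := fun n => Z n - z with hw
    set e : ℕ → Fin M → ℂ := fun n => w (n + 1) - linT z G (w n) with he
    have hrk0 : 0 ≤ r ^ (k + 1 + 1) := pow_nonneg hr0.le _
    have hrk1 : r ^ (k + 1 + 1) < 1 := pow_lt_one₀ hr0.le hr1 (by omega)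
    have hE : ExV Γ (r ^ (k + 1 + 1)) e := by
      intro i
      have h2 := ex_sq hΓ h1 (pow_nonneg hr0.le _) (by
        rw [pow_succ]
        exact mul_le_of_le_one_left hr0.le (pow_le_one₀ hr0.le hr1.le)) hr1.le ih hZ _
        (taylor z (G i))
      rw [← pow_succ] at h2
      convert h2 using 1
      funext n
      simp only [he, hw, Pi.sub_apply, linT_apply, hrec, map_sub, hz, eval_C, map_sum, map_mul,
        eval_X, mul_sub, Finset.sum_sub_distrib]
    have hw0 : Tendsto w atTop (𝓝 0) := by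
      rw [tendsto_pi_nhds]
      intro i
      exact (hZ i).tendsto hr0.le hr1
    have h3 := ExV.of_rec h0 h1 hrk0 hrk1 (linT z G) (w := w) (e := e)
      (fun n => by rw [he]; simp) hE hw0 l
      (fun ν hν => ⟨hl ν hν _ (by omega), hlΓ ν hν⟩) 1 (by simp) (by rw [hT, zero_mul])
    intro i
    exact h3 i

/-- a linear map annihilated by a product of factors with nonzero roots is invertible -/
lemma isUnit_of_list (L : Matrix (Fin M) (Fin M) ℂ) (l : List ℂ) (hl0 : ∀ ν ∈ l, ν ≠ 0)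
    (hT : Polynomial.aeval (Matrix.mulVecLin L : Module.End ℂ (Fin M → ℂ))
      (l.map fun ν => Polynomial.X - Polynomial.C ν).prod = 0) : IsUnit L := by
  set P : Polynomial ℂ := (l.map fun ν => Polynomial.X - Polynomial.C ν).prod with hP
  have h0 : P.eval 0 ≠ 0 := by
    rw [hP]
    clear hT hP P
    induction l with
    | nil => simp
    | cons a l ih =>
      rw [List.map_cons, List.prod_cons, Polynomial.eval_mul]
      apply mul_ne_zero
      · simpa using hl0 a List.mem_cons_self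
      · exact ih fun ν hν => hl0 ν (List.mem_cons_of_mem _ hν)
  rw [← Matrix.mulVec_injective_iff_isUnit]
  intro x y hxy
  have h1 : Matrix.mulVecLin L (x - y) = 0 := by
    rw [map_sub]
    simpa [sub_eq_zero] using hxy
  have h2 : ∀ Q : Polynomial ℂ, Polynomial.aeval (Matrix.mulVecLin L : Module.End ℂ (Fin M → ℂ)) Q
      (x - y) = Q.eval 0 • (x - y) := by
    intro Q
    induction Q using Polynomial.induction_on' with
    | add p q hp hq => rw [map_add, LinearMap.add_apply, hp, hq, Polynomial.eval_add, add_smul]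
    | monomial k a =>
      rw [Polynomial.aeval_monomial, Polynomial.eval_monomial]
      rcases k with _ | k
      · simp [Module.algebraMap_end_apply]
      · rw [pow_succ]
        simp only [Module.End.mul_apply, h1, map_zero, ne_eq, Nat.add_eq_zero_iff, one_ne_zero,
          and_false, not_false_eq_true, zero_pow, mul_zero, zero_smul]
  have h3 := h2 P
  rw [hT, LinearMap.zero_apply] at h3
  have h4 := (smul_eq_zero.1 h3.symm).resolve_left h0
  exact sub_eq_zero.1 h4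

/-- the ideal of the superexponentially small polynomials -/
def smallIdeal (Z : ℕ → Fin M → ℂ) (hb : ∀ h : MvPolynomial (Fin M) ℂ, Bd 1 fun n => eval (Z n) h) :
    Ideal (MvPolynomial (Fin M) ℂ) where
  carrier := {h | ∀ σ > (0 : ℝ), Bd σ fun n => eval (Z n) h}
  add_mem' := by
    intro a b ha hb σ hσ
    have := (ha σ hσ).add (hb σ hσ)
    convert this using 1
    funext n
    simp
  zero_mem' := by
    intro σ _
    have : (fun n => eval (Z n) (0 : MvPolynomial (Fin M) ℂ)) = 0 := by funext n; simp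
    rw [this]
    exact Bd.zero _
  smul_mem' := by
    intro a b hb' σ hσ
    have := (hb a).mul (hb' σ hσ)
    rw [one_mul] at this
    convert this using 1
    funext n
    simp

/-- **The affine theorem.** -/
theorem core (hΓ : ∀ a ∈ Γ, ∀ b ∈ Γ, a * b ∈ Γ) (h0 : ∀ a ∈ Γ, a ≠ 0) (h1 : ∀ a ∈ Γ, ‖a‖ < 1)
    (hC : ∀ a ∈ Γ, ∀ b ∈ Γ, ‖a‖ = ‖b‖ → a = b)
    {r C : ℝ} (hr0 : 0 < r) (hr1 : r < 1) (hz : ∀ i, eval z (G i) = z i)
    (hrec : ∀ n i, Z (n + 1) i = eval (Z n) (G i)) (hZ : ∀ n i, ‖Z n i - z i‖ ≤ C * r ^ n)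
    (l : List ℂ) (hl0 : ∀ ν ∈ l, ν ≠ 0) (hlΓ : ∀ ν ∈ l, ‖ν‖ < 1 → ν ∈ Γ)
    (hT : Polynomial.aeval (linT z G) (l.map fun ν => Polynomial.X - Polynomial.C ν).prod = 0)
    (h : MvPolynomial (Fin M) ℂ) :
    (∀ᶠ n in atTop, eval (Z n) h = 0) ∨ (∀ᶠ n in atTop, eval (Z n) h ≠ 0) := by
  classical
  obtain ⟨r', hr', hr'1, hr'2⟩ := exists_radius r hr1 hr0 l
  have hr'0 : 0 < r' := hr0.trans hr'
  have hZ' : ∀ i, Bd r' fun n => Z n i - z i := fun i =>
    Bd.mono ⟨C, fun n => hZ n i⟩ hr0.le hr'.le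
  have hlim : ∀ g : MvPolynomial (Fin M) ℂ, Tendsto (fun n => eval (Z n) g) atTop (𝓝 (eval z g)) := by
    intro g
    have := (bd_eval hr'0.le hr'1.le hZ' g).tendsto hr'0.le hr'1
    exact tendsto_sub_nhds_zero_iff.1 this
  by_cases hzh : eval z h = 0
  swap
  · right
    exact (hlim h).eventually_ne hzh
  have hexp := ex_orbit hΓ h0 h1 hr'0 hr'1 hz hrec hZ' l (fun ν hν k hk => hr'2 k hk ν hν)
    (fun ν hν h => Or.inr (hlΓ ν hν h)) hT
  have hu : ∀ σ > (0 : ℝ), ∃ ρ, 0 ≤ ρ ∧ ρ < σ ∧ Ex Γ ρ fun n => eval (Z n) h := by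
    intro σ hσ
    obtain ⟨k, hk⟩ := exists_pow_lt_of_lt_one hσ hr'1
    refine ⟨r' ^ (k + 1), pow_nonneg hr'0.le _, ?_, ?_⟩
    · refine lt_of_le_of_lt ?_ hk
      exact pow_le_pow_of_le_one hr'0.le hr'1.le (Nat.le_succ k)
    · have := ex_eval hΓ h1 (pow_nonneg hr'0.le (k + 1)) (pow_le_one₀ hr'0.le hr'1.le) (hexp k) h
      simpa [hzh] using this
  rcases dichotomy hC hu with hsmall | ⟨γ, _, hγ0, c, hc, hlow⟩
  swap
  · right
    filter_upwards [hlow] with n hn h3
    rw [h3, norm_zero] at hn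
    exact absurd hn (not_le.2 (mul_pos hc (pow_pos hγ0 n)))
  · left
    have hbd1 : ∀ g : MvPolynomial (Fin M) ℂ, Bd 1 fun n => eval (Z n) g := by
      intro g
      obtain ⟨K, hK⟩ := (hlim g).norm.bddAbove_range
      refine ⟨K, fun n => ?_⟩
      rw [one_pow, mul_one]
      exact hK ⟨n, rfl⟩
    set J := smallIdeal Z hbd1 with hJdef
    have hhJ : h ∈ J := hsmall
    have hJst : ∀ g ∈ J, phi G g ∈ J := by
      intro g hg σ hσ
      have := (hg σ hσ).sh
      convert this using 1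
      funext n
      rw [eval_phi, sh_apply]
      congr 2
      funext i
      exact (hrec n i).symm
    have hL : IsUnit (Matrix.of fun i j => eval z (pderiv j (G i)) : Matrix (Fin M) (Fin M) ℂ) :=
      isUnit_of_list _ l hl0 hT
    obtain ⟨s, hs⟩ := (inferInstance : IsNoetherian (MvPolynomial (Fin M) ℂ)
      (MvPolynomial (Fin M) ℂ)).noetherian J
    set S : ℕ → ℝ := fun n => ∑ g ∈ s, ‖eval (Z n) g‖ with hSdef
    have hS0 : ∀ n, 0 ≤ S n := fun n => Finset.sum_nonneg fun _ _ => norm_nonneg _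
    -- elements of the extended ideal
    have hspan : Ideal.map (phi G) J = Ideal.span (phi G '' (s : Set (MvPolynomial (Fin M) ℂ))) := by
      rw [← Ideal.map_span]
      have : Ideal.span (s : Set (MvPolynomial (Fin M) ℂ)) = J := hs
      rw [this]
    have hmap : ∀ x ∈ Ideal.map (phi G) J, ∃ K : ℝ, 0 ≤ K ∧ ∀ n, ‖eval (Z n) x‖ ≤ K * S (n + 1) := by
      intro x hx
      rw [hspan] at hx
      induction hx using Submodule.span_induction with
      | mem x hx =>
        obtain ⟨g, hg, rfl⟩ := hx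
        refine ⟨1, zero_le_one, fun n => ?_⟩
        rw [one_mul, eval_phi]
        have h5 : (fun i => eval (Z n) (G i)) = Z (n + 1) := funext fun i => (hrec n i).symm
        rw [h5]
        exact Finset.single_le_sum (f := fun g => ‖eval (Z (n + 1)) g‖)
          (fun _ _ => norm_nonneg _) hg
      | zero => exact ⟨0, le_rfl, fun n => by simp⟩
      | add x y _ _ ihx ihy =>
        obtain ⟨K, hK0, hK⟩ := ihx
        obtain ⟨K', hK0', hK'⟩ := ihy
        refine ⟨K + K', add_nonneg hK0 hK0', fun n => ?_⟩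
        rw [map_add, add_mul]
        exact (norm_add_le _ _).trans (add_le_add (hK n) (hK' n))
      | smul a x _ ihx =>
        obtain ⟨K, hK0, hK⟩ := ihx
        obtain ⟨A, hA0, hA⟩ := (hbd1 a).nonneg
        refine ⟨A * K, mul_nonneg hA0 hK0, fun n => ?_⟩
        rw [smul_eq_mul, map_mul, norm_mul, mul_assoc]
        have h6 := hA n
        rw [one_pow, mul_one] at h6
        exact mul_le_mul h6 (hK n) (norm_nonneg _) hA0
    have hgen : ∀ g ∈ s, ∃ K : ℝ, 0 ≤ K ∧ ∀ᶠ n in atTop, ‖eval (Z n) g‖ ≤ K * S (n + 1) := by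
      intro g hg
      have hgJ : g ∈ J := by
        rw [← hs]
        exact Submodule.subset_span hg
      obtain ⟨a, ha, hag⟩ := local_map hz hL J hJst g hgJ
      obtain ⟨K, hK0, hK⟩ := hmap _ hag
      refine ⟨2 * K, by positivity, ?_⟩
      have h6 := hlim (1 - a)
      rw [map_sub, mem_mz.1 ha, sub_zero, map_one] at h6
      have h7 := h6.norm.eventually_const_lt (u := 1 / 2) (by rw [norm_one]; norm_num)
      filter_upwards [h7] with n h8
      have h9 := hK n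
      rw [map_mul, norm_mul] at h9
      have h10 := mul_le_mul_of_nonneg_right h8.le (norm_nonneg (eval (Z n) g))
      linarith
    choose! K hK0 hK using hgen
    set K' := max 1 (∑ g ∈ s, K g) with hK'
    have hev : ∀ᶠ n in atTop, S n ≤ K' * S (n + 1) := by
      have : ∀ᶠ n in atTop, ∀ g ∈ s, ‖eval (Z n) g‖ ≤ K g * S (n + 1) :=
        (eventually_all_finset s).2 hK
      filter_upwards [this] with n hn
      calc S n ≤ ∑ g ∈ s, K g * S (n + 1) := Finset.sum_le_sum hn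
        _ = (∑ g ∈ s, K g) * S (n + 1) := by rw [Finset.sum_mul]
        _ ≤ K' * S (n + 1) := mul_le_mul_of_nonneg_right (le_max_right _ _) (hS0 _)
    obtain ⟨n₀, hn₀⟩ := eventually_atTop.1 hev
    have hK'1 : 1 ≤ K' := le_max_left _ _
    have hK'0 : 0 < K' := zero_lt_one.trans_le hK'1
    have hiter : ∀ n ≥ n₀, ∀ j, S n ≤ K' ^ j * S (n + j) := by
      intro n hn j
      induction j with
      | zero => simp
      | succ j ih =>
        refine ih.trans ?_
        rw [pow_succ, mul_assoc]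
        exact mul_le_mul_of_nonneg_left (hn₀ (n + j) (by omega)) (pow_nonneg hK'0.le _)
    -- superexponential smallness
    have hSs : ∀ σ > (0 : ℝ), ∃ A, ∀ n, S n ≤ A * σ ^ n := by
      intro σ hσ
      have : ∀ g ∈ s, ∃ A, ∀ n, ‖eval (Z n) g‖ ≤ A * σ ^ n := by
        intro g hg
        have hgJ : g ∈ J := by
          rw [← hs]
          exact Submodule.subset_span hg
        exact hgJ σ hσ
      choose! A hA using this
      refine ⟨∑ g ∈ s, A g, fun n => ?_⟩
      rw [Finset.sum_mul]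
      exact Finset.sum_le_sum fun g hg => hA g hg n
    have hzero : ∀ n ≥ n₀, S n = 0 := by
      intro n hn
      obtain ⟨A, hA⟩ := hSs (1 / (2 * K')) (by positivity)
      have h6 : ∀ j : ℕ, S n ≤ (A * (1 / (2 * K')) ^ n) * (1 / 2) ^ j := by
        intro j
        refine (hiter n hn j).trans ?_
        refine (mul_le_mul_of_nonneg_left (hA (n + j)) (pow_nonneg hK'0.le j)).trans (le_of_eq ?_)
        rw [pow_add, one_div, one_div, mul_inv, mul_pow, mul_pow]
        have : K' ^ j * K'⁻¹ ^ j = 1 := by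
          rw [← mul_pow, mul_inv_cancel₀ hK'0.ne', one_pow]
        calc K' ^ j * (A * (2⁻¹ ^ n * K'⁻¹ ^ n * (2⁻¹ ^ j * K'⁻¹ ^ j))) =
            (K' ^ j * K'⁻¹ ^ j) * (A * (2⁻¹ ^ n * K'⁻¹ ^ n) * 2⁻¹ ^ j) := by ring
          _ = A * (2⁻¹ ^ n * K'⁻¹ ^ n) * 2⁻¹ ^ j := by rw [this, one_mul]
      have h7 : Tendsto (fun j : ℕ => (A * (1 / (2 * K')) ^ n) * (1 / 2 : ℝ) ^ j) atTop (𝓝 0) := by
        have := (tendsto_pow_atTop_nhds_zero_of_lt_one (by norm_num : (0 : ℝ) ≤ 1 / 2)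
          (by norm_num)).const_mul (A * (1 / (2 * K')) ^ n)
        simpa using this
      exact le_antisymm (ge_of_tendsto' h7 h6) (hS0 n)
    -- all elements of the ideal vanish
    filter_upwards [eventually_ge_atTop n₀] with n hn
    have h8 : ∀ g ∈ s, eval (Z n) g = 0 := by
      intro g hg
      have := (Finset.sum_eq_zero_iff_of_nonneg fun g _ => norm_nonneg (eval (Z n) g)).1
        (hzero n hn) g hg
      exact norm_eq_zero.1 this
    have h9 : J ≤ mz (Z n) := by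
      rw [← hs]
      exact Submodule.span_le.2 fun g hg => mem_mz.2 (h8 g hg)
    exact mem_mz.1 (h9 hhJ)

end Pool.Agent.KS6_82.Att
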