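import Mathlib

/-!
# Finite unions of arithmetic progressions and multiplicative relations
-/

set_option autoImplicit false

namespace Pool.Agent.KS6_82.Att

open Filter Topology

/-- A finite union of arithmetic progressions `{a n + b}`, where `a = 0` is allowed. -/
def FiniteUnionAP (A : Set ℕ) : Prop :=
  ∃ T : Finset (ℕ × ℕ), A = {n : ℕ | ∃ q ∈ T, ∃ m : ℕ, n = q.1 * m + q.2}

lemma ap_of_classes (A : Set ℕ) (m : ℕ) (hm : 1 ≤ m)
    (h : ∀ b < m, (∀ᶠ k in atTop, m * k + b ∈ A) ∨ (∀ᶠ k in atTop, m * k + b ∉ A)) :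
    FiniteUnionAP A := by
  classical
  have h1 : ∀ b, ∃ K, b < m → (∀ k ≥ K, m * k + b ∈ A) ∨ (∀ k ≥ K, m * k + b ∉ A) := by
    intro b
    by_cases hb : b < m
    · rcases h b hb with h2 | h2
      · obtain ⟨K, hK⟩ := eventually_atTop.1 h2
        exact ⟨K, fun _ => Or.inl hK⟩
      · obtain ⟨K, hK⟩ := eventually_atTop.1 h2
        exact ⟨K, fun _ => Or.inr hK⟩
    · exact ⟨0, fun h => absurd h hb⟩
  choose K hK using h1
  set L := (Finset.range m).sup K with hL
  have hKL : ∀ b < m, K b ≤ L := fun b hb => Finset.le_sup (f := K) (Finset.mem_range.2 hb)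
  refine ⟨((Finset.range (m * L)).filter fun n => n ∈ A).image (fun n => (0, n)) ∪
    ((Finset.range m).filter fun b => m * L + b ∈ A).image (fun b => (m, m * L + b)), ?_⟩
  ext n
  simp only [Set.mem_ofPred_eq, Finset.mem_union, Finset.mem_image, Finset.mem_filter,
    Finset.mem_range]
  constructor
  · intro hn
    by_cases hlt : n < m * L
    · exact ⟨(0, n), Or.inl ⟨n, ⟨hlt, hn⟩, rfl⟩, 0, by simp⟩
    · rw [not_lt] at hlt
      have hmod : n % m < m := Nat.mod_lt _ (by omega)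
      have hdiv : m * (n / m) + n % m = n := Nat.div_add_mod n m
      have hk : L ≤ n / m := by
        rw [Nat.le_div_iff_mul_le (by omega), mul_comm]
        exact hlt
      refine ⟨(m, m * L + n % m), Or.inr ⟨n % m, ⟨hmod, ?_⟩, rfl⟩, n / m - L, ?_⟩
      · rcases hK (n % m) hmod with h2 | h2
        · exact h2 L (hKL _ hmod)
        · exfalso
          have := h2 (n / m) ((hKL _ hmod).trans hk)
          rw [hdiv] at this
          exact this hn
      · simp only
        have : m * (n / m) = m * (n / m - L) + m * L := by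
          rw [← mul_add, Nat.sub_add_cancel hk]
        omega
  · rintro ⟨q, hq, j, rfl⟩
    rcases hq with ⟨n', ⟨_, h3⟩, rfl⟩ | ⟨b, ⟨hb, h3⟩, rfl⟩
    · simpa using h3
    · have h5 : m * j + (m * L + b) = m * (j + L) + b := by ring
      rw [h5]
      rcases hK b hb with h2 | h2
      · exact h2 _ ((hKL b hb).trans (Nat.le_add_left _ _))
      · exact absurd h3 (h2 L (hKL b hb))

lemma ap_shift (A : Set ℕ) (s : ℕ) (h : FiniteUnionAP {n | n + s ∈ A}) : FiniteUnionAP A := by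
  classical
  obtain ⟨T, hT⟩ := h
  refine ⟨((Finset.range s).filter fun n => n ∈ A).image (fun n => (0, n)) ∪
    T.image fun q => (q.1, q.2 + s), ?_⟩
  ext n
  simp only [Set.mem_ofPred_eq, Finset.mem_union, Finset.mem_image, Finset.mem_filter,
    Finset.mem_range]
  constructor
  · intro hn
    by_cases hlt : n < s
    · exact ⟨(0, n), Or.inl ⟨n, ⟨hlt, hn⟩, rfl⟩, 0, by simp⟩
    · rw [not_lt] at hlt
      have h1 : n - s ∈ {n | n + s ∈ A} := by
        show n - s + s ∈ A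
        rwa [Nat.sub_add_cancel hlt]
      rw [hT] at h1
      obtain ⟨q, hq, j, hj⟩ := h1
      refine ⟨(q.1, q.2 + s), Or.inr ⟨q, hq, rfl⟩, j, ?_⟩
      simp only
      omega
  · rintro ⟨q, hq, j, rfl⟩
    rcases hq with ⟨n', ⟨_, h3⟩, rfl⟩ | ⟨q', hq', rfl⟩
    · simpa using h3
    · have h1 : q'.1 * j + q'.2 ∈ {n | n + s ∈ A} := by
        rw [hT]
        exact ⟨q', hq', j, rfl⟩
      have h2 : q'.1 * j + q'.2 + s ∈ A := h1
      simpa [add_assoc] using h2

variable {m : ℕ}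

/-- products of powers -/
noncomputable def pw (μ : Fin m → ℂ) (a : Fin m → ℕ) : ℂ := ∏ i, μ i ^ a i

/-- The condition on the multipliers: if two monomials in those `μ i` whose absolute value is less
than one have the same absolute value then their quotient is a root of unity. -/
def Compatible (μ : Fin m → ℂ) : Prop :=
  ∀ a b : Fin m → ℕ, (∀ i, 1 ≤ ‖μ i‖ → a i = 0 ∧ b i = 0) →
    ‖∏ i, μ i ^ a i‖ = ‖∏ i, μ i ^ b i‖ → ∃ q : ℕ, 1 ≤ q ∧ (∏ i, μ i ^ a i) ^ q = (∏ i, μ i ^ b i) ^ q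

/-- a uniform exponent -/
lemma exists_exponent (μ : Fin m → ℂ) (h0 : ∀ i, μ i ≠ 0) (hμ : Compatible μ) :
    ∃ q : ℕ, 1 ≤ q ∧ ∀ a b : Fin m → ℕ, (∀ i, 1 ≤ ‖μ i‖ → a i = 0 ∧ b i = 0) →
      ‖∏ i, μ i ^ a i‖ = ‖∏ i, μ i ^ b i‖ → (∏ i, μ i ^ a i) ^ q = (∏ i, μ i ^ b i) ^ q := by
  classical
  set Zp : (Fin m → ℤ) → ℂ := fun e => ∏ i, μ i ^ e i with hZp
  have hadd : ∀ e f, Zp (e + f) = Zp e * Zp f := by
    intro e f
    rw [hZp]
    simp only [Pi.add_apply]
    rw [← Finset.prod_mul_distrib]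
    exact Finset.prod_congr rfl fun i _ => zpow_add₀ (h0 i) _ _
  have hzero : Zp 0 = 1 := by simp [hZp]
  have hsmul : ∀ (n : ℤ) e, Zp (n • e) = Zp e ^ n := by
    intro n e
    rw [hZp]
    simp only [Pi.smul_apply, smul_eq_mul]
    rw [← Finset.prod_zpow]
    apply Finset.prod_congr rfl
    intro i _
    rw [mul_comm, zpow_mul]
  have hne : ∀ e, Zp e ≠ 0 := fun e => Finset.prod_ne_zero_iff.2 fun i _ => zpow_ne_zero _ (h0 i)
  -- the group of relations
  set A : Submodule ℤ (Fin m → ℤ) :=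
    { carrier := {e | (∀ i, 1 ≤ ‖μ i‖ → e i = 0) ∧ ‖Zp e‖ = 1}
      add_mem' := by
        rintro e f ⟨he, he'⟩ ⟨hf, hf'⟩
        refine ⟨fun i hi => ?_, ?_⟩
        · rw [Pi.add_apply, he i hi, hf i hi, add_zero]
        · rw [hadd, norm_mul, he', hf', mul_one]
      zero_mem' := ⟨fun _ _ => rfl, by rw [hzero, norm_one]⟩
      smul_mem' := by
        rintro n e ⟨he, he'⟩
        refine ⟨fun i hi => ?_, ?_⟩
        · rw [Pi.smul_apply, he i hi, smul_zero]
        · rw [hsmul, norm_zpow, he', one_zpow] } with hA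
  obtain ⟨s, hs⟩ := (inferInstance : IsNoetherian ℤ (Fin m → ℤ)).noetherian A
  have htor : ∀ e ∈ A, ∃ q : ℕ, 1 ≤ q ∧ Zp e ^ q = 1 := by
    rintro e ⟨he, he'⟩
    set a : Fin m → ℕ := fun i => (e i).toNat with ha
    set b : Fin m → ℕ := fun i => (-e i).toNat with hb
    have hab : ∀ i, e i = (a i : ℤ) - (b i : ℤ) := by
      intro i
      simp only [ha, hb]
      omega
    have hq : Zp e * ∏ i, μ i ^ b i = ∏ i, μ i ^ a i := by
      rw [hZp]
      simp only
      rw [← Finset.prod_mul_distrib]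
      apply Finset.prod_congr rfl
      intro i _
      rw [hab i, ← zpow_natCast, ← zpow_natCast, ← zpow_add₀ (h0 i)]
      congr 1
      ring
    have hb0 : (∏ i, μ i ^ b i) ≠ 0 := Finset.prod_ne_zero_iff.2 fun i _ => pow_ne_zero _ (h0 i)
    obtain ⟨q, hq1, hq2⟩ := hμ a b (fun i hi => by
      have := he i hi
      simp only [ha, hb, this]
      simp) (by rw [← hq, norm_mul, he', one_mul])
    refine ⟨q, hq1, ?_⟩
    rw [← hq, mul_pow] at hq2
    exact mul_right_cancel₀ (pow_ne_zero q hb0) (by rw [hq2, one_mul])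
  choose! Q hQ1 hQ2 using htor
  set q := ∏ e ∈ s, Q e with hqdef
  have hsA : ∀ e ∈ s, e ∈ A := fun e he => by
    rw [← hs]
    exact Submodule.subset_span he
  have hq1 : 1 ≤ q := Finset.one_le_prod' fun e he => hQ1 e (hsA e he)
  have hall : ∀ e ∈ A, Zp e ^ q = 1 := by
    intro e he
    rw [← hs] at he
    induction he using Submodule.span_induction with
    | mem e he =>
      obtain ⟨c, hc⟩ := Finset.dvd_prod_of_mem Q he
      rw [hqdef, hc, pow_mul, hQ2 e (hsA e he), one_pow]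
    | zero => rw [hzero, one_pow]
    | add e f _ _ he hf => rw [hadd, mul_pow, he, hf, mul_one]
    | smul n e _ he =>
      rw [hsmul, ← zpow_natCast, ← zpow_mul, mul_comm, zpow_mul, zpow_natCast, he, one_zpow]
  refine ⟨q, hq1, fun a b hab hn => ?_⟩
  have hb0 : (∏ i, μ i ^ b i) ≠ 0 := Finset.prod_ne_zero_iff.2 fun i _ => pow_ne_zero _ (h0 i)
  have h1 : Zp (fun i => (a i : ℤ) - (b i : ℤ)) * ∏ i, μ i ^ b i = ∏ i, μ i ^ a i := by
    rw [hZp]
    simp only
    rw [← Finset.prod_mul_distrib]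
    apply Finset.prod_congr rfl
    intro i _
    rw [← zpow_natCast, ← zpow_natCast, ← zpow_add₀ (h0 i)]
    congr 1
    ring
  have h2 : (fun i => (a i : ℤ) - (b i : ℤ)) ∈ A := by
    refine ⟨fun i hi => ?_, ?_⟩
    · obtain ⟨h3, h4⟩ := hab i hi
      show (a i : ℤ) - (b i : ℤ) = 0
      rw [h3, h4, sub_self]
    · have h5 := congrArg norm h1
      rw [norm_mul, hn] at h5
      exact mul_right_cancel₀ (norm_ne_zero_iff.2 hb0) (by rw [h5, one_mul])
  rw [← h1, mul_pow, hall _ h2, one_mul]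

end Pool.Agent.KS6_82.Att
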