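import Mathlib
import Pool.Agent.KS6_82.Att.Core

/-!
# Normalisation of an orbit in projective space
-/

set_option autoImplicit false

namespace Pool.Agent.KS6_82.Att

open Filter Topology MvPolynomial

/-- solution of `σ (n + 1) = κ n * σ n ^ D` -/
lemma exists_scale (D : ℕ) (hD : 2 ≤ D) (κ : ℕ → ℂ) {C r : ℝ} (hr0 : 0 ≤ r) (hr1 : r < 1)
    (hκ : ∀ n, ‖κ n - 1‖ ≤ C * r ^ n) (hκ' : ∀ n, ‖κ n - 1‖ ≤ 1 / 2) :
    ∃ σ : ℕ → ℂ, (∀ n, σ n ≠ 0) ∧ (∀ n, σ (n + 1) = κ n * σ n ^ D) ∧ Bd r fun n => σ n - 1 := by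
  have hD0 : (0 : ℝ) < D := by positivity
  have hD2 : (2 : ℝ) ≤ D := by exact_mod_cast hD
  have hC0 : 0 ≤ C := by
    have := (norm_nonneg _).trans (hκ 0)
    simpa using this
  set q : ℝ := 1 / D with hq
  have hq0 : 0 ≤ q := by positivity
  have hq1 : q ≤ 1 / 2 := one_div_le_one_div_of_le (by norm_num) hD2
  have hq1' : q < 1 := lt_of_le_of_lt hq1 (by norm_num)
  have hlog : ∀ n, ‖Complex.log (κ n)‖ ≤ 3 / 2 * ‖κ n - 1‖ := by
    intro n
    have := Complex.norm_log_one_add_half_le_self (hκ' n)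
    simpa using this
  have hb : ∀ n k : ℕ, ‖Complex.log (κ (n + k)) / (D : ℂ) ^ (k + 1)‖ ≤
      (3 / 2 * (C * r ^ n)) * (q * q ^ k) := by
    intro n k
    rw [norm_div, norm_pow, Complex.norm_natCast]
    have h1 : ‖Complex.log (κ (n + k))‖ ≤ 3 / 2 * (C * r ^ n) := by
      refine (hlog _).trans (mul_le_mul_of_nonneg_left ((hκ _).trans ?_) (by norm_num))
      rw [pow_add]
      exact mul_le_mul_of_nonneg_left (mul_le_of_le_one_right (pow_nonneg hr0 n)
        (pow_le_one₀ hr0 hr1.le)) hC0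
    rw [← pow_succ', hq, one_div, inv_pow, ← div_eq_mul_inv]
    exact div_le_div_of_nonneg_right h1 (pow_nonneg hD0.le _)
  have hb' : ∀ n k : ℕ, ‖Complex.log (κ (n + k)) / (D : ℂ) ^ (k + 1)‖ ≤ (3 / 4) * (q * q ^ k) := by
    intro n k
    rw [norm_div, norm_pow, Complex.norm_natCast]
    have h1 : ‖Complex.log (κ (n + k))‖ ≤ 3 / 4 := by
      refine (hlog _).trans ?_
      linarith [hκ' (n + k)]
    rw [← pow_succ', hq, one_div, inv_pow, ← div_eq_mul_inv]
    exact div_le_div_of_nonneg_right h1 (pow_nonneg hD0.le _)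
  have hgeo : HasSum (fun k : ℕ => q * q ^ k) (q * (1 - q)⁻¹) :=
    (hasSum_geometric_of_lt_one hq0 hq1').mul_left q
  have hg1 : q * (1 - q)⁻¹ ≤ 1 := by
    rw [← div_eq_mul_inv, div_le_one (by linarith)]
    linarith
  have hsum : ∀ n, Summable fun k => Complex.log (κ (n + k)) / (D : ℂ) ^ (k + 1) := fun n =>
    Summable.of_norm_bounded (hgeo.summable.mul_left _) (hb n)
  set S : ℕ → ℂ := fun n => ∑' k, Complex.log (κ (n + k)) / (D : ℂ) ^ (k + 1) with hS
  have hS1 : ∀ n, ‖S n‖ ≤ 3 / 2 * (C * r ^ n) := by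
    intro n
    refine (tsum_of_norm_bounded (hgeo.mul_left _) (hb n)).trans ?_
    have : 0 ≤ 3 / 2 * (C * r ^ n) := by positivity
    exact mul_le_of_le_one_right this hg1
  have hS2 : ∀ n, ‖S n‖ ≤ 1 := by
    intro n
    refine (tsum_of_norm_bounded (hgeo.mul_left _) (hb' n)).trans ?_
    linarith
  have hDc : (D : ℂ) ≠ 0 := by exact_mod_cast hD0.ne'
  have hSr : ∀ n, (D : ℂ) * S n = Complex.log (κ n) + S (n + 1) := by
    intro n
    simp only [hS]
    rw [(hsum n).tsum_eq_zero_add, mul_add, ← tsum_mul_left]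
    congr 1
    · rw [add_zero, zero_add, pow_one]
      field_simp
    · apply tsum_congr
      intro k
      rw [show n + (k + 1) = n + 1 + k by ring, pow_succ' (D : ℂ) (k + 1)]
      field_simp
  have hκ0 : ∀ n, κ n ≠ 0 := by
    intro n h
    have := hκ' n
    rw [h, zero_sub, norm_neg, norm_one] at this
    norm_num at this
  refine ⟨fun n => Complex.exp (-S n), fun n => Complex.exp_ne_zero _, fun n => ?_, ?_⟩
  · simp only
    rw [← Complex.exp_nat_mul]
    have h1 : (D : ℂ) * -S n = -Complex.log (κ n) + -S (n + 1) := by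
      have := hSr n
      linear_combination -this
    rw [h1, Complex.exp_add, Complex.exp_neg (Complex.log (κ n)), Complex.exp_log (hκ0 n),
      ← mul_assoc, mul_inv_cancel₀ (hκ0 n), one_mul]
  · refine ⟨2 * (3 / 2 * C), fun n => ?_⟩
    have h1 := Complex.norm_exp_sub_one_le (x := -S n) (by rw [norm_neg]; exact hS2 n)
    refine h1.trans ?_
    rw [norm_neg]
    have := hS1 n
    nlinarith

variable {M : ℕ} {z : Fin M → ℂ} {F : Fin M → MvPolynomial (Fin M) ℂ}

/-- the value of a system of polynomials -/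
noncomputable def vl (F : Fin M → MvPolynomial (Fin M) ℂ) (x : Fin M → ℂ) : Fin M → ℂ :=
  fun i => eval x (F i)

lemma eval_hom {g : MvPolynomial (Fin M) ℂ} {e : ℕ} (hg : g.IsHomogeneous e) (s : ℂ)
    (x : Fin M → ℂ) : eval (s • x) g = s ^ e * eval x g := by
  rw [eval_eq', eval_eq', Finset.mul_sum]
  apply Finset.sum_congr rfl
  intro d hd
  have h := hg (mem_support_iff.1 hd)
  have h' : d.degree = e := by
    rw [← h, Finsupp.degree_eq_weight_one]
    rfl
  rw [Finsupp.degree_eq_sum] at h'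
  have h2 : ∏ i, (s • x) i ^ d i = s ^ e * ∏ i, x i ^ d i := by
    rw [← h', ← Finset.prod_pow_eq_pow_sum, ← Finset.prod_mul_distrib]
    apply Finset.prod_congr rfl
    intro i _
    rw [Pi.smul_apply, smul_eq_mul, mul_pow]
  rw [h2]
  ring

lemma vl_smul {D : ℕ} (hF : ∀ i, (F i).IsHomogeneous D) (s : ℂ) (x : Fin M → ℂ) :
    vl F (s • x) = s ^ D • vl F x := by
  funext i
  simp only [vl, Pi.smul_apply, smul_eq_mul]
  exact eval_hom (hF i) s x

/-- Normalisation of an orbit which converges exponentially in projective space. -/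
lemma exists_orbit {D : ℕ} (hD : 2 ≤ D) (hF : ∀ i, (F i).IsHomogeneous D) (hz0 : z ≠ 0)
    (hz : vl F z = z) {X : ℕ → Fin M → ℂ} (hX : ∀ n, X (n + 1) = vl F (X n)) {s : ℕ → ℂ}
    {C r : ℝ} (hr0 : 0 < r) (hr1 : r < 1) (hs : ∀ n, ‖s n • X n - z‖ ≤ C * r ^ n) :
    ∃ (n₀ : ℕ) (a : ℕ → ℂ) (C' : ℝ), (∀ n, a n ≠ 0) ∧
      (∀ n, a (n + 1) • X (n₀ + (n + 1)) = vl F (a n • X (n₀ + n))) ∧
      ∀ n i, ‖(a n • X (n₀ + n)) i - z i‖ ≤ C' * r ^ n := by
  obtain ⟨i0, hi0⟩ : ∃ i, z i ≠ 0 := by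
    by_contra h
    push Not at h
    exact hz0 (funext h)
  set T : ℕ → Fin M → ℂ := fun n => s n • X n with hT
  have hTb : ∀ i, Bd r fun n => T n i - z i := by
    intro i
    refine ⟨C, fun n => ?_⟩
    have := norm_le_pi_norm (s n • X n - z) i
    exact this.trans (hs n)
  have hTt : ∀ i, Tendsto (fun n => T n i) atTop (𝓝 (z i)) := fun i =>
    tendsto_sub_nhds_zero_iff.1 ((hTb i).tendsto hr0.le hr1)
  -- `F (T n)`
  set N : ℕ → ℂ := fun n => vl F (T n) i0 with hN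
  have hNb : Bd r fun n => N n - z i0 := by
    have := bd_eval hr0.le hr1.le hTb (F i0)
    convert this using 1
    funext n
    rw [hN]
    have h2 : eval z (F i0) = z i0 := congrFun hz i0
    rw [h2]
    rfl
  have hTs : Bd r fun n => T (n + 1) i0 - z i0 := (hTb i0).sh
  -- the ratio
  set κ : ℕ → ℂ := fun n => N n / T (n + 1) i0 with hκ
  have hTne : ∀ᶠ n in atTop, ‖z i0‖ / 2 < ‖T n i0‖ := by
    have := (hTt i0).norm
    exact this.eventually_const_lt (by have := norm_pos_iff.2 hi0; linarith)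
  obtain ⟨n₁, hn₁⟩ := eventually_atTop.1 hTne
  have hz2 : 0 < ‖z i0‖ / 2 := by have := norm_pos_iff.2 hi0; linarith
  have hTne' : ∀ n ≥ n₁, T n i0 ≠ 0 := fun n hn h => by
    have := hn₁ n hn
    rw [h, norm_zero] at this
    linarith
  obtain ⟨A, hA0, hA⟩ := (hNb.sub hTs).nonneg
  have hκ1 : ∀ n ≥ n₁, ‖κ n - 1‖ ≤ (A / (‖z i0‖ / 2)) * r ^ n := by
    intro n hn
    have h1 : κ n - 1 = (N n - T (n + 1) i0) / T (n + 1) i0 := by
      rw [hκ]
      simp only
      rw [sub_div, div_self (hTne' (n + 1) (by omega))]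
    rw [h1, norm_div]
    have h2 : ‖N n - T (n + 1) i0‖ ≤ A * r ^ n := by
      have := hA n
      simp only [Pi.sub_apply] at this
      convert this using 2
      ring
    have h3 := hn₁ (n + 1) (by omega)
    calc ‖N n - T (n + 1) i0‖ / ‖T (n + 1) i0‖ ≤ (A * r ^ n) / (‖z i0‖ / 2) :=
          div_le_div₀ (by positivity) h2 hz2 h3.le
      _ = (A / (‖z i0‖ / 2)) * r ^ n := by ring
  have hκt : Tendsto (fun n : ℕ => (A / (‖z i0‖ / 2)) * r ^ n) atTop (𝓝 0) := by
    have := (tendsto_pow_atTop_nhds_zero_of_lt_one hr0.le hr1).const_mul (A / (‖z i0‖ / 2))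
    simpa using this
  obtain ⟨n₂, hn₂⟩ := eventually_atTop.1 (hκt.eventually_lt_const (show (0 : ℝ) < 1 / 2 by norm_num))
  set n₀ := max n₁ n₂ with hn₀
  obtain ⟨σ, hσ0, hσr, hσb⟩ := exists_scale D hD (fun n => κ (n₀ + n))
    (C := (A / (‖z i0‖ / 2)) * r ^ n₀) hr0.le hr1
    (fun n => by
      refine (hκ1 (n₀ + n) (by omega)).trans (le_of_eq ?_)
      rw [pow_add]
      ring)
    (fun n => (hκ1 (n₀ + n) (by omega)).trans (hn₂ _ (by omega)).le)
  have hXne : ∀ n ≥ n₁, s n ≠ 0 := by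
    intro n hn h
    apply hTne' n hn
    rw [hT]
    simp [h]
  -- `F (T n) = κ n T (n + 1)`
  have hFT : ∀ n ≥ n₁, vl F (T n) = κ n • T (n + 1) := by
    intro n hn
    have h1 : vl F (T n) = (s n ^ D / s (n + 1)) • T (n + 1) := by
      rw [hT]
      simp only
      rw [vl_smul hF, ← hX, smul_smul, div_mul_cancel₀ _ (hXne (n + 1) (by omega))]
    have h2 : κ n = s n ^ D / s (n + 1) := by
      rw [hκ, hN]
      simp only
      rw [h1, Pi.smul_apply, smul_eq_mul, mul_div_assoc, div_self (hTne' (n + 1) (by omega)),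
        mul_one]
    rw [h1, h2]
  refine ⟨n₀, fun n => σ n * s (n₀ + n), ?_⟩
  have hZ : ∀ n, (σ n * s (n₀ + n)) • X (n₀ + n) = σ n • T (n₀ + n) := by
    intro n
    rw [hT, smul_smul]
  have hTb' : ∀ i, Bd r fun n => T (n₀ + n) i - z i := by
    intro i
    obtain ⟨B, hB⟩ := hTb i
    refine ⟨B * r ^ n₀, fun n => (hB (n₀ + n)).trans (le_of_eq ?_)⟩
    rw [pow_add]
    ring
  have hfin : ∀ i, Bd r fun n => (σ n • T (n₀ + n)) i - z i := by
    intro i
    have h1 := ((hσb.mul (hTb' i)).mono (mul_nonneg hr0.le hr0.le)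
      (mul_le_of_le_one_left hr0.le hr1.le)).add ((hTb' i).add (hσb.smul (z i)))
    convert h1 using 1
    funext n
    simp only [Pi.smul_apply, Pi.add_apply, Pi.mul_apply, smul_eq_mul]
    ring
  choose B hB using hfin
  refine ⟨∑ i, |B i|, fun n => mul_ne_zero (hσ0 n) (hXne _ (by omega)), fun n => ?_,
    fun n i => ?_⟩
  · have e1 := hZ (n + 1)
    have e2 := hZ n
    calc (σ (n + 1) * s (n₀ + (n + 1))) • X (n₀ + (n + 1)) = σ (n + 1) • T (n₀ + (n + 1)) := e1
      _ = (σ n ^ D * κ (n₀ + n)) • T (n₀ + n + 1) := by rw [hσr, mul_comm]; rfl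
      _ = σ n ^ D • (κ (n₀ + n) • T (n₀ + n + 1)) := mul_smul _ _ _
      _ = σ n ^ D • vl F (T (n₀ + n)) := by rw [hFT _ (by omega)]
      _ = vl F (σ n • T (n₀ + n)) := (vl_smul hF _ _).symm
      _ = vl F ((σ n * s (n₀ + n)) • X (n₀ + n)) := by rw [e2]
  · rw [hZ]
    refine (hB i n).trans (mul_le_mul_of_nonneg_right ?_ (pow_nonneg hr0.le n))
    exact (le_abs_self _).trans (Finset.single_le_sum (f := fun i => |B i|)
      (fun _ _ => abs_nonneg _) (Finset.mem_univ i))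

end Pool.Agent.KS6_82.Att
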