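import Mathlib
import Pool.Agent.KS6_82.Att.Scale

/-!
# Orbits in projective space converging exponentially to a cycle
-/

set_option autoImplicit false

namespace Pool.Agent.KS6_82.Att

open Filter Topology MvPolynomial

variable {M : ℕ}

/-! ### Iterates and derivatives -/

/-- the iterates as systems of polynomials -/
noncomputable def itp (f : Fin M → MvPolynomial (Fin M) ℂ) : ℕ → Fin M → MvPolynomial (Fin M) ℂ
  | 0 => X
  | n + 1 => fun i => bind₁ (itp f n) (f i)

lemma eval_bind (G : Fin M → MvPolynomial (Fin M) ℂ) (h : MvPolynomial (Fin M) ℂ) (x : Fin M → ℂ) :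
    eval x (bind₁ G h) = eval (vl G x) h := MvPolynomial.eval₂Hom_bind₁ (RingHom.id ℂ) x G h

lemma vl_itp (f : Fin M → MvPolynomial (Fin M) ℂ) (n : ℕ) (x : Fin M → ℂ) :
    vl (itp f n) x = (vl f)^[n] x := by
  induction n with
  | zero => funext i; simp [itp, vl]
  | succ n ih =>
    rw [Function.iterate_succ_apply']
    funext i
    show eval x (bind₁ (itp f n) (f i)) = _
    rw [eval_bind, ih]
    rfl

lemma itp_hom {f : Fin M → MvPolynomial (Fin M) ℂ} {d : ℕ} (hf : ∀ i, (f i).IsHomogeneous d) (n : ℕ) :
    ∀ i, (itp f n i).IsHomogeneous (d ^ n) := by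
  induction n with
  | zero =>
    intro i
    rw [pow_zero]
    exact isHomogeneous_X _ _
  | succ n ih =>
    intro i
    rw [pow_succ]
    exact (hf i).aeval _ ih

lemma hasFDerivAt_eval (g : MvPolynomial (Fin M) ℂ) (z : Fin M → ℂ) :
    HasFDerivAt (fun x : Fin M → ℂ => eval x g)
      (∑ j, eval z (pderiv j g) • (ContinuousLinearMap.proj j : (Fin M → ℂ) →L[ℂ] ℂ)) z := by
  classical
  induction g using MvPolynomial.induction_on with
  | C a =>
    have e : (fun x : Fin M → ℂ => eval x (C a)) = fun _ => a := by funext x; simp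
    rw [e]
    refine (hasFDerivAt_const a z).congr_fderiv ?_
    ext v
    simp
  | add p q hp hq =>
    have e : (fun x : Fin M → ℂ => eval x (p + q)) = fun x => eval x p + eval x q := by
      funext x; simp
    rw [e]
    refine (hp.add hq).congr_fderiv ?_
    rw [← Finset.sum_add_distrib]
    apply Finset.sum_congr rfl
    intro j _
    rw [map_add, map_add]
    exact (add_smul _ _ _).symm
  | mul_X h i ih =>
    have h1 := ih.mul (ContinuousLinearMap.proj (R := ℂ) (φ := fun _ : Fin M => ℂ) i).hasFDerivAt
    have e : (fun x : Fin M → ℂ => eval x (h * X i)) = fun x => eval x h * x i := by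
      funext x; simp
    rw [e]
    refine h1.congr_fderiv ?_
    ext v
    simp only [add_apply, smul_apply,
      sum_apply, ContinuousLinearMap.proj_apply, smul_eq_mul]
    have h2 : ∀ j, eval z (pderiv j (h * X i)) * v j =
        z i * (eval z (pderiv j h) * v j) + (if j = i then eval z h * v j else 0) := by
      intro j
      rw [Derivation.leibniz, pderiv_X, smul_eq_mul, smul_eq_mul]
      by_cases hj : j = i
      · subst hj
        simp only [Pi.single_eq_same, mul_one, if_true, map_add, map_mul, eval_X]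
        ring
      · rw [if_neg hj]
        have : (Pi.single j 1 : Fin M → MvPolynomial (Fin M) ℂ) i = 0 := by
          rw [Pi.single_apply, if_neg (Ne.symm hj)]
        rw [this]
        simp only [mul_zero, map_add, map_mul, eval_X, map_zero]
        ring
    simp_rw [h2]
    rw [Finset.sum_add_distrib, Finset.sum_ite_eq' Finset.univ i, ← Finset.mul_sum,
      if_pos (Finset.mem_univ i)]
    ring

lemma hasFDerivAt_vl (G : Fin M → MvPolynomial (Fin M) ℂ) (z : Fin M → ℂ) :
    HasFDerivAt (vl G) (LinearMap.toContinuousLinearMap (linT z G)) z := by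
  rw [hasFDerivAt_pi']
  intro i
  refine (hasFDerivAt_eval (G i) z).congr_fderiv ?_
  ext v
  simp only [sum_apply, smul_apply, smul_eq_mul, ContinuousLinearMap.proj_apply]
  rfl

lemma fderiv_iterate (f : Fin M → MvPolynomial (Fin M) ℂ) (l : ℕ) (z : Fin M → ℂ) :
    (fderiv ℂ (vl f)^[l] z : (Fin M → ℂ) →ₗ[ℂ] (Fin M → ℂ)) = linT z (itp f l) := by
  have h1 : (vl f)^[l] = vl (itp f l) := by
    funext x
    exact (vl_itp f l x).symm
  rw [h1, (hasFDerivAt_vl (itp f l) z).fderiv]
  rfl

lemma linT_iterate (f : Fin M → MvPolynomial (Fin M) ℂ) (l q : ℕ) (z : Fin M → ℂ)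
    (hz : (vl f)^[l] z = z) : linT z (itp f (l * q)) = linT z (itp f l) ^ q := by
  have h1 := hasFDerivAt_vl (itp f l) z
  have hz' : vl (itp f l) z = z := by rw [vl_itp, hz]
  have h2 := h1.iterate hz' q
  have h3 : (vl (itp f l))^[q] = vl (itp f (l * q)) := by
    have h4 : vl (itp f l) = (vl f)^[l] := funext fun x => vl_itp f l x
    funext x
    rw [h4, vl_itp, Function.iterate_mul]
  rw [h3] at h2
  have h5 := (hasFDerivAt_vl (itp f (l * q)) z).unique h2
  refine LinearMap.ext fun v => ?_
  have h7 := DFunLike.congr_fun h5 v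
  have h8 : ((LinearMap.toContinuousLinearMap (linT z (itp f l))) ^ q) v =
      (linT z (itp f l) ^ q) v := by
    clear h7 h5 h3 h2 h1
    induction q generalizing v with
    | zero => simp
    | succ q ih => rw [pow_succ', pow_succ']; simp [ih]
  exact h7.trans h8

/-- Euler's formula at a fixed point -/
lemma euler {G : Fin M → MvPolynomial (Fin M) ℂ} {D : ℕ} (hG : ∀ i, (G i).IsHomogeneous D)
    {z : Fin M → ℂ} (hz : vl G z = z) : linT z G z = (D : ℂ) • z := by
  -- differentiate `s ↦ G (s z)` at `1`
  have h1 : HasDerivAt (fun s : ℂ => s • z) z 1 := by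
    have := (hasDerivAt_id (1 : ℂ)).smul_const z
    simpa using this
  have h2 : HasFDerivAt (vl G) (LinearMap.toContinuousLinearMap (linT z G)) ((1 : ℂ) • z) := by
    rw [one_smul]
    exact hasFDerivAt_vl G z
  have h3 := h2.comp_hasDerivAt (1 : ℂ) h1
  have h4 : HasDerivAt (fun s : ℂ => s ^ D • z) ((D : ℂ) • z) 1 := by
    have := (hasDerivAt_pow D (1 : ℂ)).smul_const z
    simpa using this
  have h5 : (vl G ∘ fun s : ℂ => s • z) = fun s : ℂ => s ^ D • z := by
    funext s
    rw [Function.comp_apply, vl_smul hG, hz]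
  rw [h5] at h3
  exact h3.unique h4

end Pool.Agent.KS6_82.Att
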