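import Mathlib
import Pool.Agent.KS6_82.Att.Proj
import Pool.Agent.KS6_82.Att.Prog

/-!
# Dynamical Mordell-Lang for orbits converging exponentially to a cycle
-/

set_option autoImplicit false

namespace Pool.Agent.KS6_82.Att

open Filter Topology MvPolynomial

variable {M m : ℕ}

/-- the assertion of the Dynamical Mordell-Lang conjecture for the point `α` -/
def DMLAt (f : Fin M → MvPolynomial (Fin M) ℂ) (α : Fin M → ℂ) : Prop :=
  ∀ S : Set (MvPolynomial (Fin M) ℂ), (∀ g ∈ S, ∃ e : ℕ, g.IsHomogeneous e) →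
    FiniteUnionAP {n : ℕ | ∀ g ∈ S, eval ((vl f)^[n] α) g = 0}

lemma DMLAt.of_iterate {f : Fin M → MvPolynomial (Fin M) ℂ} {α : Fin M → ℂ} (n : ℕ)
    (h : DMLAt f ((vl f)^[n] α)) : DMLAt f α := by
  intro S hS
  apply ap_shift _ n
  have := h S hS
  simp only [← Function.iterate_add_apply] at this
  exact this

/-- `μ` is a system of multipliers: the product of the `L - μ i` maps to the line of `z`. -/
def Kills (L : Module.End ℂ (Fin M → ℂ)) (z : Fin M → ℂ) (μ : Fin m → ℂ) : Prop :=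
  ∀ v, ∃ a : ℂ, Polynomial.aeval L (∏ i, (Polynomial.X - Polynomial.C (μ i))) v = a • z

lemma Kills.pow {L : Module.End ℂ (Fin M → ℂ)} {z : Fin M → ℂ} {μ : Fin m → ℂ} {D : ℂ}
    (hLz : L z = D • z) (h : Kills L z μ) (q : ℕ) : Kills (L ^ q) z fun i => μ i ^ q := by
  intro v
  have h1 : Polynomial.aeval (L ^ q) (∏ i, (Polynomial.X - Polynomial.C (μ i ^ q))) =
      Polynomial.aeval L (∏ i, (Polynomial.X ^ q - Polynomial.C (μ i) ^ q)) := by
    have e1 : (∏ i, ((Polynomial.X : Polynomial ℂ) ^ q - Polynomial.C (μ i) ^ q)) =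
        (∏ i, (Polynomial.X - Polynomial.C (μ i ^ q))).comp (Polynomial.X ^ q) := by
      rw [Polynomial.prod_comp]
      apply Finset.prod_congr rfl
      intro i _
      rw [Polynomial.sub_comp, Polynomial.X_comp, Polynomial.C_comp, map_pow]
    rw [e1, Polynomial.aeval_comp, map_pow, Polynomial.aeval_X]
  have h2 : (∏ i, (Polynomial.X - Polynomial.C (μ i))) ∣
      ∏ i, ((Polynomial.X : Polynomial ℂ) ^ q - Polynomial.C (μ i) ^ q) :=
    Finset.prod_dvd_prod_of_dvd _ _ fun i _ => sub_dvd_pow_sub_pow _ _ _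
  obtain ⟨R, hR⟩ := h2
  obtain ⟨a, ha⟩ := h v
  rw [h1, hR, mul_comm, map_mul, Module.End.mul_apply, ha]
  have h3 : ∀ Q : Polynomial ℂ, Polynomial.aeval L Q z = Q.eval D • z := by
    intro Q
    induction Q using Polynomial.induction_on' with
    | add p q hp hq => rw [map_add, LinearMap.add_apply, hp, hq, Polynomial.eval_add, add_smul]
    | monomial k b =>
      rw [Polynomial.aeval_monomial, Polynomial.eval_monomial]
      have h4 : (L ^ k) z = D ^ k • z := by
        induction k with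
        | zero => simp
        | succ k ih => rw [pow_succ', Module.End.mul_apply, ih, map_smul, hLz, smul_smul, pow_succ]
      rw [Module.End.mul_apply, h4]
      simp [Module.algebraMap_end_apply, smul_smul, mul_comm]
  exact ⟨a * R.eval D, by rw [map_smul, h3, smul_smul]⟩

lemma pw_norm_lt {μ : Fin m → ℂ} {a : Fin m → ℕ} (ha : ∀ i, 1 ≤ ‖μ i‖ → a i = 0)
    (ha0 : ∃ i, a i ≠ 0) : ‖∏ i, μ i ^ a i‖ < 1 := by
  classical
  obtain ⟨i, hi⟩ := ha0
  rw [norm_prod, ← Finset.mul_prod_erase _ _ (Finset.mem_univ i)]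
  have h1 : ‖μ i ^ a i‖ < 1 := by
    rw [norm_pow]
    have hlt : ‖μ i‖ < 1 := by
      by_contra h
      exact hi (ha i (not_lt.1 h))
    exact pow_lt_one₀ (norm_nonneg _) hlt hi
  have h2 : ∏ j ∈ Finset.univ.erase i, ‖μ j ^ a j‖ ≤ 1 := by
    apply Finset.prod_le_one
    · intro j _; exact norm_nonneg _
    · intro j _
      rw [norm_pow]
      by_cases hj : 1 ≤ ‖μ j‖
      · rw [ha j hj, pow_zero]
      · exact pow_le_one₀ (norm_nonneg _) (not_le.1 hj).le
  calc ‖μ i ^ a i‖ * ∏ j ∈ Finset.univ.erase i, ‖μ j ^ a j‖ ≤ ‖μ i ^ a i‖ * 1 :=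
        mul_le_mul_of_nonneg_left h2 (norm_nonneg _)
    _ < 1 := by rwa [mul_one]

/-- **The main theorem.** -/
theorem main_exp {f : Fin M → MvPolynomial (Fin M) ℂ} {d l : ℕ} (hd : 2 ≤ d) (hl : 1 ≤ l)
    (hf : ∀ i, (f i).IsHomogeneous d) {z : Fin M → ℂ} (hz0 : z ≠ 0) (hz : (vl f)^[l] z = z)
    {μ : Fin m → ℂ} (hμ0 : ∀ i, μ i ≠ 0) (hμ : Kills (linT z (itp f l)) z μ)
    (hC : Compatible μ) {α : Fin M → ℂ} {s : ℕ → ℂ} {C r : ℝ} (hr : r < 1)
    (hs : ∀ n, ‖s n • (vl f)^[l * n] α - z‖ ≤ C * r ^ n) : DMLAt f α := by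
  classical
  -- a positive rate
  obtain ⟨r', hr'0, hr'1, hs'⟩ : ∃ r' : ℝ, 0 < r' ∧ r' < 1 ∧ ∃ C' : ℝ, ∀ n,
      ‖s n • (vl f)^[l * n] α - z‖ ≤ C' * r' ^ n := by
    have hC0 : 0 ≤ C := by
      have := (norm_nonneg _).trans (hs 0)
      simpa using this
    refine ⟨max r (1 / 2), lt_max_of_lt_right (by norm_num), max_lt hr (by norm_num), C,
      fun n => ?_⟩
    by_cases hr0 : 0 ≤ r
    · refine (hs n).trans (mul_le_mul_of_nonneg_left ?_ hC0)
      exact pow_le_pow_left₀ hr0 (le_max_left _ _) n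
    · -- `r < 0`: the odd terms force `C = 0`
      rw [not_le] at hr0
      have h1 := (norm_nonneg _).trans (hs 1)
      rw [pow_one] at h1
      have h2 : C = 0 := by nlinarith
      have h3 := hs n
      rw [h2, zero_mul] at h3
      exact h3.trans (mul_nonneg hC0 (pow_nonneg (by positivity) n))
  obtain ⟨C', hs'⟩ := hs'
  have hC'0 : 0 ≤ C' := by
    have := (norm_nonneg _).trans (hs' 0)
    simpa using this
  obtain ⟨q, hq1, hq⟩ := exists_exponent μ hμ0 hC
  set L := l * q with hL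
  have hL1 : 1 ≤ L := Nat.mul_pos hl hq1
  set F := itp f L with hF
  set D := d ^ L with hD
  have hD2 : 2 ≤ D := hd.trans (Nat.le_self_pow (by omega) d)
  have hFhom : ∀ i, (F i).IsHomogeneous D := itp_hom hf L
  have hzF : vl F z = z := by
    rw [hF, vl_itp, hL, Function.iterate_mul]
    exact Function.iterate_fixed hz q
  -- the orbit
  set X : ℕ → Fin M → ℂ := fun n => (vl f)^[L * n] α with hX
  have hXr : ∀ n, X (n + 1) = vl F (X n) := by
    intro n
    rw [hF, vl_itp, hX]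
    simp only
    rw [← Function.iterate_add_apply]
    congr 1
    ring
  obtain ⟨n₀, a, B, ha0, har, haB⟩ := exists_orbit hD2 hFhom hz0 hzF hXr (s := fun n => s (q * n))
    (C := C') (r := r') hr'0 hr'1 (fun n => by
      have h1 := hs' (q * n)
      rw [← mul_assoc] at h1
      refine h1.trans (mul_le_mul_of_nonneg_left ?_ hC'0)
      exact pow_le_pow_of_le_one hr'0.le hr'1.le (Nat.le_mul_of_pos_left n hq1))
  -- the frequencies
  set Γ : Set ℂ := {γ | ∃ e : Fin m → ℕ, (∃ i, e i ≠ 0) ∧ (∀ i, 1 ≤ ‖μ i‖ → e i = 0) ∧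
    γ = (∏ i, μ i ^ e i) ^ q} with hΓ
  have hΓmul : ∀ a ∈ Γ, ∀ b ∈ Γ, a * b ∈ Γ := by
    rintro _ ⟨e, ⟨i, hi⟩, he, rfl⟩ _ ⟨e', _, he', rfl⟩
    refine ⟨e + e', ⟨i, by simp [hi]⟩, fun j hj => by simp [he j hj, he' j hj], ?_⟩
    rw [← mul_pow, ← Finset.prod_mul_distrib]
    simp only [Pi.add_apply, pow_add]
  have hΓ0 : ∀ a ∈ Γ, a ≠ 0 := by
    rintro _ ⟨e, _, _, rfl⟩
    exact pow_ne_zero _ (Finset.prod_ne_zero_iff.2 fun i _ => pow_ne_zero _ (hμ0 i))
  have hΓ1 : ∀ a ∈ Γ, ‖a‖ < 1 := by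
    rintro _ ⟨e, he1, he, rfl⟩
    rw [norm_pow]
    exact pow_lt_one₀ (norm_nonneg _) (pw_norm_lt he he1) (by omega)
  have hΓC : ∀ a ∈ Γ, ∀ b ∈ Γ, ‖a‖ = ‖b‖ → a = b := by
    rintro _ ⟨e, _, he, rfl⟩ _ ⟨e', _, he', rfl⟩ h
    apply hq e e' fun i hi => ⟨he i hi, he' i hi⟩
    rw [norm_pow, norm_pow] at h
    exact (pow_left_inj₀ (norm_nonneg _) (norm_nonneg _) (by omega)).1 h
  set lst : List ℂ := (D : ℂ) :: List.ofFn fun i => μ i ^ q with hlst
  have hl0 : ∀ ν ∈ lst, ν ≠ 0 := by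
    intro ν hν
    rcases List.mem_cons.1 hν with rfl | hν
    · exact_mod_cast (by omega : D ≠ 0)
    · obtain ⟨i, rfl⟩ := (List.mem_ofFn' _ _).1 hν
      exact pow_ne_zero _ (hμ0 i)
  have hlΓ : ∀ ν ∈ lst, ‖ν‖ < 1 → ν ∈ Γ := by
    intro ν hν hn
    rcases List.mem_cons.1 hν with rfl | hν
    · exfalso
      rw [Complex.norm_natCast] at hn
      have : (2 : ℝ) ≤ D := by exact_mod_cast hD2
      linarith
    · obtain ⟨i, rfl⟩ := (List.mem_ofFn' _ _).1 hν
      have hi : ‖μ i‖ < 1 := by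
        by_contra h
        rw [norm_pow] at hn
        exact absurd hn (not_lt.2 (one_le_pow₀ (not_lt.1 h)))
      refine ⟨Pi.single i 1, ⟨i, by simp⟩, fun j hj => ?_, ?_⟩
      · rw [Pi.single_apply, if_neg]
        rintro rfl
        exact absurd hi (not_lt.2 hj)
      · skip
        rw [Finset.prod_eq_single i]
        · simp
        · intro j _ hj
          rw [Pi.single_apply, if_neg hj, pow_zero]
        · intro h
          exact absurd (Finset.mem_univ i) h
  have hLz : linT z (itp f l) z = ((d ^ l : ℕ) : ℂ) • z := by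
    apply euler (itp_hom hf l)
    rw [vl_itp, hz]
  have hT : Polynomial.aeval (linT z F)
      (lst.map fun ν => Polynomial.X - Polynomial.C ν).prod = 0 := by
    have hk := hμ.pow hLz q
    rw [← linT_iterate f l q z hz] at hk
    refine LinearMap.ext fun v => ?_
    rw [hlst, List.map_cons, List.prod_cons, map_mul, Module.End.mul_apply, List.map_ofFn,
      List.prod_ofFn]
    obtain ⟨c, hc⟩ := hk v
    have e1 : (∏ i, ((fun ν : ℂ => (Polynomial.X : Polynomial ℂ) - Polynomial.C ν) ∘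
        fun i => μ i ^ q) i) = ∏ i, (Polynomial.X - Polynomial.C (μ i ^ q)) := rfl
    rw [e1]
    have hc' : Polynomial.aeval (linT z F) (∏ i, (Polynomial.X - Polynomial.C (μ i ^ q))) v =
        c • z := hc
    rw [hc', map_smul, map_sub, Polynomial.aeval_X, Polynomial.aeval_C, LinearMap.sub_apply,
      euler hFhom hzF, Module.algebraMap_end_apply, sub_self, smul_zero]
    rfl
  set Z : ℕ → Fin M → ℂ := fun n => a n • X (n₀ + n) with hZ
  have hcore : ∀ h : MvPolynomial (Fin M) ℂ,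
      (∀ᶠ n in atTop, eval (Z n) h = 0) ∨ (∀ᶠ n in atTop, eval (Z n) h ≠ 0) := by
    intro h
    exact core (z := z) (Z := Z) (G := F) hΓmul hΓ0 hΓ1 hΓC hr'0 hr'1 (fun i => congrFun hzF i)
      (fun n i => congrFun (har n) i) (fun n i => haB n i) lst hl0 hlΓ hT h
  -- single forms and residue classes
  have hform : ∀ (g : MvPolynomial (Fin M) ℂ) (e : ℕ), g.IsHomogeneous e → ∀ b : ℕ,
      (∀ᶠ k in atTop, eval ((vl f)^[L * k + b] α) g = 0) ∨
        (∀ᶠ k in atTop, eval ((vl f)^[L * k + b] α) g ≠ 0) := by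
    intro g e hg b
    set h := bind₁ (itp f b) g with hh
    have hhom : h.IsHomogeneous (d ^ b * e) := hg.aeval _ (itp_hom hf b)
    have hev : ∀ k, eval (X k) h = eval ((vl f)^[L * k + b] α) g := by
      intro k
      rw [hh, eval_bind, vl_itp, hX]
      simp only
      rw [← Function.iterate_add_apply, add_comm b]
    have hzero : ∀ k, eval (Z k) h = 0 ↔ eval (X (n₀ + k)) h = 0 := by
      intro k
      rw [hZ]
      simp only
      rw [eval_hom hhom, mul_eq_zero]
      constructor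
      · rintro (h1 | h1)
        · exact absurd h1 (pow_ne_zero _ (ha0 k))
        · exact h1
      · exact Or.inr
    rcases hcore h with h1 | h1
    · left
      obtain ⟨K, hK⟩ := eventually_atTop.1 h1
      filter_upwards [eventually_ge_atTop (n₀ + K)] with k hk
      rw [← hev]
      obtain ⟨j, rfl⟩ := Nat.exists_eq_add_of_le hk
      have := (hzero (K + j)).1 (hK (K + j) (by omega))
      rwa [← add_assoc] at this
    · right
      obtain ⟨K, hK⟩ := eventually_atTop.1 h1
      filter_upwards [eventually_ge_atTop (n₀ + K)] with k hk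
      rw [← hev]
      obtain ⟨j, rfl⟩ := Nat.exists_eq_add_of_le hk
      intro h2
      apply hK (K + j) (by omega)
      rw [hzero, ← add_assoc]
      exact h2
  -- all closed sets
  intro S hS
  obtain ⟨s', hs'S, hspan⟩ := (Submodule.fg_span_iff_fg_span_finset_subset S).1
    ((inferInstance : IsNoetherian (MvPolynomial (Fin M) ℂ) (MvPolynomial (Fin M) ℂ)).noetherian
      (Submodule.span _ S))
  have hiff : ∀ x : Fin M → ℂ, (∀ g ∈ S, eval x g = 0) ↔ ∀ g ∈ s', eval x g = 0 := by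
    intro x
    constructor
    · intro h g hg
      exact h g (hs'S hg)
    · intro h g hg
      have h1 : Ideal.span S ≤ mz x := by
        have h2 : Ideal.span S = Ideal.span (s' : Set (MvPolynomial (Fin M) ℂ)) := hspan
        rw [h2, Ideal.span_le]
        intro y hy
        exact mem_mz.2 (h y hy)
      exact mem_mz.1 (h1 (Ideal.subset_span hg))
  apply ap_of_classes _ L hL1
  intro b _
  by_cases hall : ∀ g ∈ s', ∀ᶠ k in atTop, eval ((vl f)^[L * k + b] α) g = 0
  · left
    have := (eventually_all_finset s').2 hall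
    filter_upwards [this] with k hk
    exact (hiff _).2 hk
  · right
    obtain ⟨g, hg'⟩ := Classical.not_forall.1 hall
    obtain ⟨hg, hno⟩ := Classical.not_imp.1 hg'
    obtain ⟨e, he⟩ := hS g (hs'S hg)
    rcases hform g e he b with h1 | h1
    · exact absurd h1 hno
    · filter_upwards [h1] with k hk h2
      exact hk ((hiff _).1 h2 g hg)

end Pool.Agent.KS6_82.Att
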