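import Mathlib
import Pool.Agent.KS6_82.Att.Main

/-!
# Basins of attracting cycles
-/

set_option autoImplicit false

namespace Pool.Agent.KS6_82.Att

open Filter Topology MvPolynomial

variable {M m : ℕ}

lemma bd_iter {ρ : ℝ} (T : Module.End ℂ (Fin M → ℂ)) (l : List ℂ) : ∀ (_ : ∀ ν ∈ l, ‖ν‖ < ρ)
    (v : Fin M → ℂ) (_ : Polynomial.aeval T (l.map fun ν => Polynomial.X - Polynomial.C ν).prod v = 0)
    (i : Fin M), Bd ρ fun n => (T ^ n) v i := by
  induction l with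
  | nil =>
    intro _ v hv i
    simp only [List.map_nil, List.prod_nil, map_one, Module.End.one_apply] at hv
    subst hv
    have : (fun n => (T ^ n) (0 : Fin M → ℂ) i) = 0 := by funext n; simp
    rw [this]
    exact Bd.zero _
  | cons a l ih =>
    intro hl v hv i
    have h2 : Polynomial.aeval T (l.map fun ν => Polynomial.X - Polynomial.C ν).prod
        (Polynomial.aeval T (Polynomial.X - Polynomial.C a) v) = 0 := by
      rw [List.map_cons, List.prod_cons, mul_comm, map_mul] at hv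
      exact hv
    have h3 := ih (fun ν hν => hl ν (List.mem_cons_of_mem _ hν)) _ h2 i
    refine rec_stable (hl a List.mem_cons_self) ?_
    convert h3 using 1
    funext n
    rw [dl, map_sub, Polynomial.aeval_X, Polynomial.aeval_C, LinearMap.sub_apply, map_sub,
      Module.algebraMap_end_apply, map_smul, pow_succ, Module.End.mul_apply]
    rfl

lemma aeval_eigen {T : Module.End ℂ (Fin M → ℂ)} {z : Fin M → ℂ} {D : ℂ} (hT : T z = D • z)
    (Q : Polynomial ℂ) : Polynomial.aeval T Q z = Q.eval D • z := by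
  induction Q using Polynomial.induction_on' with
  | add p q hp hq => rw [map_add, LinearMap.add_apply, hp, hq, Polynomial.eval_add, add_smul]
  | monomial k b =>
    rw [Polynomial.aeval_monomial, Polynomial.eval_monomial]
    have h4 : (T ^ k) z = D ^ k • z := by
      induction k with
      | zero => simp
      | succ k ih => rw [pow_succ', Module.End.mul_apply, ih, map_smul, hT, smul_smul, pow_succ]
    rw [Module.End.mul_apply, h4]
    simp [Module.algebraMap_end_apply, smul_smul, mul_comm]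

lemma exists_rate (μ : Fin m → ℂ) (hμ : ∀ i, ‖μ i‖ < 1) : ∃ ρ : ℝ, 0 ≤ ρ ∧ ρ < 1 ∧ ∀ i, ‖μ i‖ < ρ := by
  obtain ⟨τ, h1, h2, h3⟩ : ∃ τ, (0 : ℝ) ≤ τ ∧ τ < 1 ∧ ∀ i, ‖μ i‖ < τ := by
    classical
    have : ∀ s : Finset (Fin m), ∃ τ, (0 : ℝ) ≤ τ ∧ τ < 1 ∧ ∀ i ∈ s, ‖μ i‖ < τ := by
      intro s
      induction s using Finset.induction_on with
      | empty => exact ⟨0, le_rfl, one_pos, by simp⟩
      | insert a s ha ih =>
        obtain ⟨τ, h1, h2, h3⟩ := ih
        obtain ⟨τ', h4, h5⟩ := exists_between (max_lt h2 (hμ a))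
        refine ⟨τ', h1.trans ((le_max_left _ _).trans h4.le), h5, fun i hi => ?_⟩
        rcases Finset.mem_insert.1 hi with rfl | hi
        · exact (le_max_right _ _).trans_lt h4
        · exact (h3 i hi).trans ((le_max_left _ _).trans_lt h4)
    obtain ⟨τ, h1, h2, h3⟩ := this Finset.univ
    exact ⟨τ, h1, h2, fun i => h3 i (Finset.mem_univ i)⟩
  exact ⟨τ, h1, h2, h3⟩

/-- powers are nearly of rank one -/
lemma exists_power {T : Module.End ℂ (Fin M → ℂ)} {z : Fin M → ℂ} {D : ℂ} (hT : T z = D • z)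
    (hD : 1 ≤ ‖D‖) {μ : Fin m → ℂ} (hμ : ∀ i, ‖μ i‖ < 1) (hk : Kills T z μ) {ε : ℝ} (hε : 0 < ε) :
    ∃ p : ℕ, 1 ≤ p ∧ ∃ a : (Fin M → ℂ) →ₗ[ℂ] ℂ, ∀ v, ‖(T ^ p) v - a v • z‖ ≤ ε * ‖v‖ := by
  classical
  obtain ⟨ρ, hρ0, hρ1, hρ⟩ := exists_rate μ hμ
  set P : Polynomial ℂ := ∏ i, (Polynomial.X - Polynomial.C (μ i)) with hP
  have hE : P.eval D ≠ 0 := by
    rw [hP, Polynomial.eval_prod]
    apply Finset.prod_ne_zero_iff.2
    intro i _ h
    rw [Polynomial.eval_sub, Polynomial.eval_X, Polynomial.eval_C, sub_eq_zero] at h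
    rw [h] at hD
    exact absurd (hμ i) (not_lt.2 hD)
  choose κ hκ using fun j : Fin M => hk (Pi.single j 1)
  set y : Fin M → Fin M → ℂ := fun j => Pi.single j 1 - (κ j / P.eval D) • z with hy
  have hPy : ∀ j, Polynomial.aeval T P (y j) = 0 := by
    intro j
    rw [hy]
    simp only
    rw [map_sub, map_smul, aeval_eigen hT, hκ, smul_smul, div_mul_cancel₀ _ hE, sub_self]
  have hlist : P = ((List.ofFn μ).map fun ν => Polynomial.X - Polynomial.C ν).prod := by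
    rw [List.map_ofFn, List.prod_ofFn]
    rfl
  have htend : ∀ j, Tendsto (fun n => (T ^ n) (y j)) atTop (𝓝 0) := by
    intro j
    rw [tendsto_pi_nhds]
    intro i
    have h1 : Polynomial.aeval T ((List.ofFn μ).map fun ν => Polynomial.X - Polynomial.C ν).prod
        (y j) = 0 := by
      rw [← hlist]
      exact hPy j
    exact (bd_iter T (List.ofFn μ) (fun ν hν => by
      obtain ⟨i, rfl⟩ := (List.mem_ofFn' _ _).1 hν
      exact hρ i) (y j) h1 i).tendsto hρ0 hρ1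
  have hsum : Tendsto (fun n => ∑ j, ‖(T ^ n) (y j)‖) atTop (𝓝 0) := by
    have := tendsto_finsetSum Finset.univ fun j _ => (htend j).norm
    simpa using this
  obtain ⟨p, hp1, hp2⟩ := ((hsum.eventually_lt_const hε).and (eventually_ge_atTop 1)).exists
  refine ⟨p, hp2, ∑ j, (κ j / P.eval D * D ^ p) • LinearMap.proj j, fun v => ?_⟩
  have hTz : (T ^ p) z = D ^ p • z := by
    have := aeval_eigen hT (Polynomial.X ^ p)
    simpa using this
  have h1 : (T ^ p) v - (∑ j, (κ j / P.eval D * D ^ p) • (LinearMap.proj j :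
      (Fin M → ℂ) →ₗ[ℂ] ℂ)) v • z = ∑ j, v j • (T ^ p) (y j) := by
    have h2 : v = ∑ j, v j • (Pi.single j 1 : Fin M → ℂ) := by
      funext i
      rw [Finset.sum_apply]
      simp [Pi.single_apply]
    have h3 : (T ^ p) v = ∑ j, v j • (T ^ p) (Pi.single j 1) := by
      conv_lhs => rw [h2]
      rw [map_sum]
      simp_rw [map_smul]
    rw [h3, LinearMap.sum_apply, Finset.sum_smul, ← Finset.sum_sub_distrib]
    apply Finset.sum_congr rfl
    intro j _
    rw [hy]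
    simp only [LinearMap.smul_apply, LinearMap.proj_apply, smul_eq_mul]
    rw [map_sub, map_smul, hTz, smul_sub, smul_smul, smul_smul]
    congr 2
    ring
  rw [h1]
  calc ‖∑ j, v j • (T ^ p) (y j)‖ ≤ ∑ j, ‖v‖ * ‖(T ^ p) (y j)‖ := by
        refine norm_sum_le_of_le _ fun j _ => ?_
        rw [norm_smul]
        exact mul_le_mul_of_nonneg_right (norm_le_pi_norm v j) (norm_nonneg _)
    _ = (∑ j, ‖(T ^ p) (y j)‖) * ‖v‖ := by rw [← Finset.mul_sum, mul_comm]
    _ ≤ ε * ‖v‖ := mul_le_mul_of_nonneg_right hp1.le (norm_nonneg _)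

/-- contraction in projective space -/
lemma contract {g : (Fin M → ℂ) → Fin M → ℂ} {z : Fin M → ℂ} (hg : g z = z)
    {T : Module.End ℂ (Fin M → ℂ)} (hT : HasFDerivAt g (LinearMap.toContinuousLinearMap T) z)
    {a : (Fin M → ℂ) →ₗ[ℂ] ℂ} (ha : ∀ v, ‖T v - a v • z‖ ≤ 1 / 4 * ‖v‖) :
    ∃ δ > (0 : ℝ), ∀ x, ‖x - z‖ < δ → ∃ b : ℂ, ‖b • g x - z‖ ≤ 1 / 2 * ‖x - z‖ := by
  have h1 := hT.isLittleO.def (show (0 : ℝ) < 1 / 16 by norm_num)
  obtain ⟨δ₁, hδ₁, h2⟩ := Metric.eventually_nhds_iff.1 h1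
  set A := ‖LinearMap.toContinuousLinearMap a‖ with hA
  have hA0 : 0 ≤ A := norm_nonneg _
  have hAv : ∀ v, ‖a v‖ ≤ A * ‖v‖ := fun v => (LinearMap.toContinuousLinearMap a).le_opNorm v
  refine ⟨min δ₁ (1 / (4 * (A + 1))), lt_min hδ₁ (by positivity), fun x hx => ?_⟩
  set v := x - z with hv
  have hx1 := hx.trans_le (min_le_left _ _)
  have hx2 := hx.trans_le (min_le_right _ _)
  have h3 : ‖g x - z - T v‖ ≤ 1 / 16 * ‖v‖ := by
    have := h2 (y := x) (by rw [dist_eq_norm]; exact hx1)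
    rw [hg] at this
    exact this
  have h4 : ‖a v‖ ≤ 1 / 4 := by
    refine (hAv v).trans ?_
    have h5 : ‖v‖ * (4 * (A + 1)) < 1 := by
      rw [lt_div_iff₀ (by positivity)] at hx2
      exact hx2
    nlinarith [norm_nonneg v]
  have h5 : 3 / 4 ≤ ‖1 + a v‖ := by
    have := norm_sub_norm_le (1 : ℂ) (-a v)
    rw [sub_neg_eq_add, norm_one, norm_neg] at this
    linarith
  have h6 : (1 + a v) ≠ 0 := norm_pos_iff.1 (by linarith)
  refine ⟨(1 + a v)⁻¹, ?_⟩
  have h7 : (1 + a v)⁻¹ • g x - z = (1 + a v)⁻¹ • ((g x - z - T v) + (T v - a v • z)) := by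
    have h8 : z = (1 + a v)⁻¹ • ((1 + a v) • z) := by rw [smul_smul, inv_mul_cancel₀ h6, one_smul]
    conv_lhs => rw [h8]
    rw [← smul_sub]
    congr 1
    rw [add_smul, one_smul]
    abel
  rw [h7, norm_smul, norm_inv]
  have h8 : ‖(g x - z - T v) + (T v - a v • z)‖ ≤ 5 / 16 * ‖v‖ := by
    refine (norm_add_le _ _).trans ?_
    have := ha v
    linarith
  have h9 : ‖1 + a v‖⁻¹ ≤ 4 / 3 := by
    rw [inv_le_comm₀ (by linarith) (by norm_num)]
    norm_num
    exact h5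
  calc ‖1 + a v‖⁻¹ * ‖(g x - z - T v) + (T v - a v • z)‖ ≤ 4 / 3 * (5 / 16 * ‖v‖) :=
        mul_le_mul h9 h8 (norm_nonneg _) (by norm_num)
    _ ≤ 1 / 2 * ‖v‖ := by
        have := norm_nonneg v
        linarith

lemma Compatible.pow {μ : Fin m → ℂ} (h : Compatible μ) (p : ℕ) :
    Compatible fun i => μ i ^ p := by
  intro a b hab hn
  have e : ∀ c : Fin m → ℕ, ∏ i, (μ i ^ p) ^ c i = ∏ i, μ i ^ (p * c i) := by
    intro c
    apply Finset.prod_congr rfl
    intro i _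
    rw [pow_mul]
  simp only [e] at hn ⊢
  refine h (fun i => p * a i) (fun i => p * b i) (fun i hi => ?_) hn
  have h1 : 1 ≤ ‖μ i ^ p‖ := by
    rw [norm_pow]
    exact one_le_pow₀ hi
  obtain ⟨h2, h3⟩ := hab i h1
  simp [h2, h3]

/-- orbits near an attracting cycle converge exponentially -/
theorem near_conv {f : Fin M → MvPolynomial (Fin M) ℂ} {d l : ℕ} (hd : 2 ≤ d)
    (hf : ∀ i, (f i).IsHomogeneous d) {z : Fin M → ℂ} (hz : (vl f)^[l] z = z)
    {μ : Fin m → ℂ} (hμ1 : ∀ i, ‖μ i‖ < 1) (hμ : Kills (linT z (itp f l)) z μ) :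
    ∃ p : ℕ, 1 ≤ p ∧ ∃ δ > (0 : ℝ), ∀ (α : Fin M → ℂ) (s : ℂ), ‖s • α - z‖ < δ →
      ∃ σ : ℕ → ℂ, ∀ k, ‖σ k • (vl f)^[l * p * k] α - z‖ ≤ ‖s • α - z‖ * (1 / 2) ^ k := by
  have hLz : linT z (itp f l) z = ((d ^ l : ℕ) : ℂ) • z := by
    apply euler (itp_hom hf l)
    rw [vl_itp, hz]
  obtain ⟨p, hp1, a, ha⟩ := exists_power hLz (by
    rw [Complex.norm_natCast]
    exact_mod_cast Nat.one_le_pow _ _ (by omega)) hμ1 hμ (show (0 : ℝ) < 1 / 4 by norm_num)
  have hzp : (vl f)^[l * p] z = z := by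
    rw [Function.iterate_mul]
    exact Function.iterate_fixed hz p
  have hzF : vl (itp f (l * p)) z = z := by rw [vl_itp, hzp]
  have hF := hasFDerivAt_vl (itp f (l * p)) z
  rw [linT_iterate f l p z hz] at hF
  obtain ⟨δ, hδ, hcon⟩ := contract hzF hF ha
  choose! β hβ using hcon
  refine ⟨p, hp1, δ, hδ, fun α' s hs => ?_⟩
  set D := d ^ (l * p) with hD
  set σ : ℕ → ℂ := fun k => Nat.rec (motive := fun _ => ℂ) s
    (fun k t => β (t • (vl f)^[l * p * k] α') * t ^ D) k with hσ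
  have hσ0 : σ 0 = s := rfl
  have hσ1 : ∀ k, σ (k + 1) = β (σ k • (vl f)^[l * p * k] α') * σ k ^ D := fun k => rfl
  refine ⟨σ, fun k => ?_⟩
  induction k with
  | zero => rw [hσ0, mul_zero, pow_zero, mul_one]; rfl
  | succ k ih =>
    have h1 : ‖σ k • (vl f)^[l * p * k] α' - z‖ < δ := by
      refine ih.trans_lt (lt_of_le_of_lt ?_ hs)
      exact mul_le_of_le_one_right (norm_nonneg _) (pow_le_one₀ (by norm_num) (by norm_num))
    have h2 := hβ _ h1
    have e3 : (vl f)^[l * p] ((vl f)^[l * p * k] α') = (vl f)^[l * p + l * p * k] α' :=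
      (Function.iterate_add_apply _ _ _ _).symm
    rw [vl_smul (itp_hom hf (l * p)), vl_itp, e3, smul_smul] at h2
    rw [hσ1, show l * p * (k + 1) = l * p + l * p * k by ring]
    refine h2.trans ?_
    rw [pow_succ]
    linarith

/-- the theorem for the iterate -/
theorem main_exp_pow {f : Fin M → MvPolynomial (Fin M) ℂ} {d l p : ℕ} (hd : 2 ≤ d) (hl : 1 ≤ l)
    (hp : 1 ≤ p)
    (hf : ∀ i, (f i).IsHomogeneous d) {z : Fin M → ℂ} (hz0 : z ≠ 0) (hz : (vl f)^[l] z = z)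
    {μ : Fin m → ℂ} (hμ0 : ∀ i, μ i ≠ 0) (hμ : Kills (linT z (itp f l)) z μ)
    (hC : Compatible μ) {α : Fin M → ℂ} {s : ℕ → ℂ} {C r : ℝ} (hr : r < 1)
    (hs : ∀ n, ‖s n • (vl f)^[l * p * n] α - z‖ ≤ C * r ^ n) : DMLAt f α := by
  have hLz : linT z (itp f l) z = ((d ^ l : ℕ) : ℂ) • z := by
    apply euler (itp_hom hf l)
    rw [vl_itp, hz]
  have hzp : (vl f)^[l * p] z = z := by
    rw [Function.iterate_mul]
    exact Function.iterate_fixed hz p
  refine main_exp hd (Nat.mul_pos hl hp) hf hz0 hzp (μ := fun i => μ i ^ p)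
    (fun i => pow_ne_zero _ (hμ0 i)) ?_ (hC.pow p) hr hs
  rw [linT_iterate f l p z hz]
  exact hμ.pow hLz p

end Pool.Agent.KS6_82.Att
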