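import Mathlib
import Pool.Agent.KS6_82.Att.Near

/-!
# Maps with prescribed multipliers
-/

set_option autoImplicit false

namespace Pool.Agent.KS6_82.Att

open Filter Topology MvPolynomial

variable {N : ℕ}

/-- The system `(X_0 ^ d + Q_0, lam_1 X_0 ^ (d - 1) X_1 + Q_1, …, lam_N X_0 ^ (d - 1) X_N + Q_N)`. -/
noncomputable def fam (d : ℕ) (lam : Fin N → ℂ) (Q : Fin (N + 1) → MvPolynomial (Fin (N + 1)) ℂ) :
    Fin (N + 1) → MvPolynomial (Fin (N + 1)) ℂ :=
  fun i => (Fin.cases (X 0 ^ d) (fun j => C (lam j) * X 0 ^ (d - 1) * X j.succ) i :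
    MvPolynomial (Fin (N + 1)) ℂ) + Q i

/-- the point `(1, 0, …, 0)` -/
def e0 : Fin (N + 1) → ℂ := Fin.cons 1 0

lemma e0_zero : (e0 : Fin (N + 1) → ℂ) 0 = 1 := rfl

lemma e0_succ (j : Fin N) : (e0 : Fin (N + 1) → ℂ) j.succ = 0 := rfl

lemma aeval_diag {M : ℕ} {T : Module.End ℂ (Fin M → ℂ)} {t : Fin M → ℂ}
    (hT : ∀ v i, T v i = t i * v i) (P : Polynomial ℂ) (v : Fin M → ℂ) (i : Fin M) :
    Polynomial.aeval T P v i = P.eval (t i) * v i := by
  induction P using Polynomial.induction_on' with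
  | add p q hp hq =>
    rw [map_add, LinearMap.add_apply, Pi.add_apply, hp, hq, Polynomial.eval_add, add_mul]
  | monomial k b =>
    rw [Polynomial.aeval_monomial, Polynomial.eval_monomial]
    have h4 : ∀ w, (T ^ k) w i = t i ^ k * w i := by
      induction k with
      | zero => intro w; simp
      | succ k ih =>
        intro w
        rw [pow_succ, Module.End.mul_apply, ih, hT, pow_succ]
        ring
    rw [Module.End.mul_apply, Module.algebraMap_end_apply, Pi.smul_apply, h4, smul_eq_mul]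
    ring

lemma fam_hom {d : ℕ} (hd : 2 ≤ d) (lam : Fin N → ℂ) {Q : Fin (N + 1) → MvPolynomial (Fin (N + 1)) ℂ}
    (hQ : ∀ i, (Q i).IsHomogeneous d) (i : Fin (N + 1)) : (fam d lam Q i).IsHomogeneous d := by
  apply IsHomogeneous.add _ (hQ i)
  refine Fin.cases ?_ (fun j => ?_) i
  · simp only [Fin.cases_zero]
    have := (isHomogeneous_X ℂ (0 : Fin (N + 1))).pow d
    rwa [one_mul] at this
  · simp only [Fin.cases_succ]
    have h1 := (isHomogeneous_X ℂ (0 : Fin (N + 1))).pow (d - 1)
    have h2 := ((isHomogeneous_C (Fin (N + 1)) (lam j)).mul h1).mul (isHomogeneous_X ℂ j.succ)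
    have h3 : 0 + 1 * (d - 1) + 1 = d := by omega
    rwa [h3] at h2

theorem fam_data {d : ℕ} (hd : 2 ≤ d) (lam : Fin N → ℂ)
    (Q : Fin (N + 1) → MvPolynomial (Fin (N + 1)) ℂ)
    (hQ0 : ∀ i, eval e0 (Q i) = 0) (hQ1 : ∀ i j, eval e0 (pderiv j (Q i)) = 0) :
    vl (fam d lam Q) e0 = e0 ∧ Kills (linT e0 (itp (fam d lam Q) 1)) e0 lam := by
  have hfix : vl (fam d lam Q) e0 = e0 := by
    funext i
    simp only [vl, fam, map_add, hQ0, add_zero]
    refine Fin.cases ?_ (fun j => ?_) i
    · simp [e0_zero]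
    · simp [e0_zero, e0_succ]
  have hit : itp (fam d lam Q) 1 = fam d lam Q := by
    funext i
    show bind₁ X (fam d lam Q i) = _
    rw [bind₁_X_left]
    rfl
  set t : Fin (N + 1) → ℂ := Fin.cons (d : ℂ) lam with ht
  have hT : ∀ v i, linT e0 (fam d lam Q) v i = t i * v i := by
    intro v i
    rw [linT_apply]
    have h2 : ∀ j, eval e0 (pderiv j (fam d lam Q i)) = if j = i then t i else 0 := by
      intro j
      simp only [fam, map_add, hQ1, add_zero]
      refine Fin.cases ?_ (fun k => ?_) i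
      · simp only [Fin.cases_zero]
        rw [Derivation.leibniz_pow, pderiv_X]
        by_cases hj : j = 0
        · subst hj
          simp [e0_zero, ht]
        · rw [if_neg hj, Pi.single_apply, if_neg (Ne.symm hj)]
          simp
      · simp only [Fin.cases_succ]
        rw [Derivation.leibniz, Derivation.leibniz, Derivation.leibniz_pow, pderiv_X, pderiv_X,
          pderiv_C]
        by_cases hj : j = k.succ
        · subst hj
          simp [e0_zero, e0_succ, ht]
        · rw [if_neg hj]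
          have : (Pi.single j 1 : Fin (N + 1) → MvPolynomial (Fin (N + 1)) ℂ) k.succ = 0 := by
            rw [Pi.single_apply, if_neg (Ne.symm hj)]
          rw [this]
          simp [e0_succ]
    simp_rw [h2, ite_mul, zero_mul]
    rw [Finset.sum_ite_eq' Finset.univ i, if_pos (Finset.mem_univ i)]
  refine ⟨hfix, ?_⟩
  rw [hit]
  intro v
  refine ⟨(∏ i, ((Polynomial.X : Polynomial ℂ) - Polynomial.C (lam i))).eval (d : ℂ) * v 0, ?_⟩
  funext i
  rw [aeval_diag hT, Pi.smul_apply, smul_eq_mul]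
  refine Fin.cases ?_ (fun j => ?_) i
  · rw [e0_zero, mul_one]
    rfl
  · rw [e0_succ, mul_zero]
    have h3 : (∏ i, ((Polynomial.X : Polynomial ℂ) - Polynomial.C (lam i))).eval (t j.succ) = 0 := by
      rw [Polynomial.eval_prod]
      apply Finset.prod_eq_zero (Finset.mem_univ j)
      simp [ht]
    rw [h3, zero_mul]

end Pool.Agent.KS6_82.Att
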